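import Pool.Agent.Helper5_MGHD.ODE

set_option autoImplicit false

open Set Metric Filter Topology
open scoped NNReal

namespace Pool.Agent.Helper5MGHD

/-- Working notion: a classical solution `u` of `u_t + u u_c = 0`, `u ≠ 0`, on an open set `Ω`
containing `{t = 0}`, such that inextendible timelike graphs in `Ω` meet `{t = 0}`. -/
structure IsSol (Ω : Set (ℝ × ℝ)) (u : ℝ × ℝ → ℝ) : Prop where
  isOpen : IsOpen Ω
  smooth : ContDiffOn ℝ 1 u Ω
  ne : ∀ z ∈ Ω, u z ≠ 0
  burgers : ∀ z ∈ Ω, fderiv ℝ u z (1, u z) = 0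
  line : ∀ c : ℝ, ((0 : ℝ), c) ∈ Ω
  cauchy : ∀ (I : Set ℝ) (ξ : ℝ → ℝ), IsOpen I → I.OrdConnected → I.Nonempty →
    ContDiffOn ℝ 1 ξ I → (∀ t ∈ I, (t, ξ t) ∈ Ω ∧ 0 < deriv ξ t * (u (t, ξ t) - deriv ξ t)) →
    (¬ ∃ q ∈ Ω, Tendsto (fun t : I => ((t : ℝ), ξ t)) atTop (𝓝 q)) →
    (¬ ∃ q ∈ Ω, Tendsto (fun t : I => ((t : ℝ), ξ t)) atBot (𝓝 q)) → (0 : ℝ) ∈ I

section Lines

variable {Ω : Set (ℝ × ℝ)} {u : ℝ × ℝ → ℝ}

theorem hasDerivAt_line (c0 l t0 s : ℝ) :
    HasDerivAt (fun s : ℝ => (s, c0 + l * (s - t0))) ((1 : ℝ), l) s := by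
  have h1 : HasDerivAt (fun s : ℝ => s) 1 s := hasDerivAt_id s
  have h2 : HasDerivAt (fun s : ℝ => c0 + l * (s - t0)) l s := by
    have := ((hasDerivAt_id s).sub_const t0).const_mul l
    simpa using this.const_add c0
  exact h1.prodMk h2

theorem hasFDerivAt_of_sol (ho : IsOpen Ω) (hs : ContDiffOn ℝ 1 u Ω) {z : ℝ × ℝ} (hz : z ∈ Ω) :
    HasFDerivAt u (fderiv ℝ u z) z :=
  ((hs.contDiffAt (ho.mem_nhds hz)).differentiableAt one_ne_zero).hasFDerivAt

/-- `u` is constant along straight characteristics inside `Ω`. -/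
theorem const_along (ho : IsOpen Ω) (hs : ContDiffOn ℝ 1 u Ω)
    (hb : ∀ z ∈ Ω, fderiv ℝ u z (1, u z) = 0) {t0 c0 t1 : ℝ}
    (hseg : ∀ s ∈ uIcc t0 t1, (s, c0 + u (t0, c0) * (s - t0)) ∈ Ω) :
    ∀ s ∈ uIcc t0 t1, u (s, c0 + u (t0, c0) * (s - t0)) = u (t0, c0) := by
  set l := u (t0, c0) with hl
  set L : ℝ → ℝ × ℝ := fun s => (s, c0 + l * (s - t0)) with hL
  have hLc : Continuous L := by
    simp only [hL]; fun_prop
  have hfd : ContinuousOn (fderiv ℝ u) Ω := hs.continuousOn_fderiv_of_isOpen ho le_rfl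
  set k : ℝ → ℝ := fun s => -(fderiv ℝ u (L s) (0, 1)) with hk
  have hkc : ContinuousOn k (uIcc t0 t1) := by
    have h1 : ContinuousOn (fun s => fderiv ℝ u (L s)) (uIcc t0 t1) :=
      hfd.comp hLc.continuousOn (fun s hs => hseg s hs)
    exact (h1.clm_apply continuousOn_const).neg
  obtain ⟨C, hC⟩ := isCompact_uIcc.exists_bound_of_continuousOn hkc
  have hC0 : 0 ≤ C := (norm_nonneg _).trans (hC t0 left_mem_uIcc)
  have hder : ∀ s ∈ uIcc t0 t1, HasDerivAt (fun s => u (L s) - l) (k s * (u (L s) - l)) s := by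
    intro s hs'
    have h1 := (hasFDerivAt_of_sol ho hs (hseg s hs')).comp_hasDerivAt s (hasDerivAt_line c0 l t0 s)
    have h2 : fderiv ℝ u (L s) ((1 : ℝ), l) = k s * (u (L s) - l) := by
      have h3 : ((1 : ℝ), l) = (1, u (L s)) + (l - u (L s)) • ((0 : ℝ), (1 : ℝ)) := by
        ext <;> simp
      rw [h3, map_add, map_smul, hb _ (hseg s hs'), hk]
      simp only [smul_eq_mul]
      ring
    have h4 : HasDerivAt (fun s => u (L s)) (k s * (u (L s) - l)) s := by
      rw [← h2]; exact h1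
    exact h4.sub_const l
  have hlip : ∀ s ∈ uIcc t0 t1, LipschitzOnWith (Real.toNNReal C) (fun y : ℝ => k s * y) univ := by
    intro s hs'
    apply LipschitzWith.lipschitzOnWith
    apply LipschitzWith.of_dist_le_mul
    intro x y
    rw [Real.coe_toNNReal _ hC0, Real.dist_eq, Real.dist_eq, ← mul_sub, abs_mul]
    have := hC s hs'
    rw [Real.norm_eq_abs] at this
    gcongr
  have hL0 : L t0 = (t0, c0) := by simp [hL]
  have h0 : u (L t0) - l = 0 := by rw [hL0, hl]; ring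
  have hcont : ContinuousOn (fun s => u (L s) - l) (uIcc t0 t1) :=
    fun s hs' => (hder s hs').continuousAt.continuousWithinAt
  have hzero : ∀ s ∈ uIcc t0 t1, u (L s) - l = 0 := by
    rcases le_total t0 t1 with h | h
    · rw [uIcc_of_le h] at *
      exact ODE_solution_unique_of_mem_Icc_right (v := fun s y => k s * y) (s := fun _ => univ)
        (K := Real.toNNReal C) (g := fun _ => (0 : ℝ))
        (fun t ht => hlip t (Ico_subset_Icc_self ht)) hcont
        (fun t ht => (hder t (Ico_subset_Icc_self ht)).hasDerivWithinAt) (fun _ _ => trivial)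
        continuousOn_const (fun t _ => by simpa using (hasDerivAt_const t (0 : ℝ)).hasDerivWithinAt)
        (fun _ _ => trivial) h0
    · rw [uIcc_of_ge h] at *
      exact ODE_solution_unique_of_mem_Icc_left (v := fun s y => k s * y) (s := fun _ => univ)
        (K := Real.toNNReal C) (g := fun _ => (0 : ℝ))
        (fun t ht => hlip t (Ioc_subset_Icc_self ht)) hcont
        (fun t ht => (hder t (Ioc_subset_Icc_self ht)).hasDerivWithinAt) (fun _ _ => trivial)
        continuousOn_const (fun t _ => by simpa using (hasDerivAt_const t (0 : ℝ)).hasDerivWithinAt)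
        (fun _ _ => trivial) h0
  intro s hs'
  have := hzero s hs'
  simp only [hL] at this
  linarith

/-- Tube lemma: nearby characteristics stay in `Ω`. -/
theorem nearby_lines (ho : IsOpen Ω) (hs : ContDiffOn ℝ 1 u Ω) {t0 c0 t1 : ℝ}
    (hz : (t0, c0) ∈ Ω)
    (hseg : ∀ s ∈ uIcc t0 t1, (s, c0 + u (t0, c0) * (s - t0)) ∈ Ω) :
    ∀ᶠ c in 𝓝 c0, (t0, c) ∈ Ω ∧ ∀ s ∈ uIcc t0 t1, (s, c + u (t0, c) * (s - t0)) ∈ Ω := by
  have hcu : ContinuousAt (fun c => u (t0, c)) c0 := by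
    have h1 : ContinuousAt u (t0, c0) := hs.continuousOn.continuousAt (ho.mem_nhds hz)
    exact h1.comp (f := fun c => (t0, c)) (by fun_prop)
  have h1 : ∀ᶠ c in 𝓝 c0, (t0, c) ∈ Ω := by
    have : ContinuousAt (fun c : ℝ => (t0, c)) c0 := by fun_prop
    exact this.eventually_mem (ho.mem_nhds hz)
  refine h1.and ?_
  apply isCompact_uIcc.eventually_forall_of_forall_eventually
  intro s hs'
  have hc : ContinuousAt (fun z : ℝ × ℝ => ((z.2, z.1 + u (t0, z.1) * (z.2 - t0)) : ℝ × ℝ))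
      (c0, s) := by
    have h2 : ContinuousAt (fun z : ℝ × ℝ => u (t0, z.1)) (c0, s) :=
      ContinuousAt.comp (g := fun c => u (t0, c)) (f := fun z : ℝ × ℝ => z.1) hcu continuousAt_fst
    exact continuousAt_snd.prodMk (continuousAt_fst.add (h2.mul (continuousAt_snd.sub
      continuousAt_const)))
  exact hc.eventually_mem (ho.mem_nhds (hseg s hs'))

/-- derivative of the trace `c ↦ u (t0, c)` -/
theorem hasDerivAt_trace (ho : IsOpen Ω) (hs : ContDiffOn ℝ 1 u Ω) {t0 c0 : ℝ}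
    (hz : (t0, c0) ∈ Ω) : HasDerivAt (fun c => u (t0, c)) (fderiv ℝ u (t0, c0) (0, 1)) c0 := by
  have h1 : HasDerivAt (fun c : ℝ => (t0, c)) ((0 : ℝ), (1 : ℝ)) c0 :=
    (hasDerivAt_const c0 t0).prodMk (hasDerivAt_id c0)
  exact (hasFDerivAt_of_sol ho hs hz).comp_hasDerivAt c0 h1

/-- Characteristics inside `Ω` do not focus. -/
theorem jacobian_pos (ho : IsOpen Ω) (hs : ContDiffOn ℝ 1 u Ω)
    (hb : ∀ z ∈ Ω, fderiv ℝ u z (1, u z) = 0) {t0 c0 t1 : ℝ} (hz : (t0, c0) ∈ Ω)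
    (hseg : ∀ s ∈ uIcc t0 t1, (s, c0 + u (t0, c0) * (s - t0)) ∈ Ω) :
    0 < 1 + fderiv ℝ u (t0, c0) (0, 1) * (t1 - t0) := by
  have hnear := nearby_lines ho hs hz hseg
  set m := fderiv ℝ u (t0, c0) (0, 1) with hm
  -- the Jacobian never vanishes on the segment
  have hne : ∀ s ∈ uIcc t0 t1, 1 + m * (s - t0) ≠ 0 := by
    intro s hs' h0
    have hX : HasDerivAt (fun c => c + u (t0, c) * (s - t0)) (1 + m * (s - t0)) c0 :=
      (hasDerivAt_id c0).add ((hasDerivAt_trace ho hs hz).mul_const (s - t0))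
    have hX2 : HasDerivAt (fun c : ℝ => (s, c + u (t0, c) * (s - t0)))
        ((0 : ℝ), 1 + m * (s - t0)) c0 := (hasDerivAt_const c0 s).prodMk hX
    have h1 := (hasFDerivAt_of_sol ho hs (hseg s hs')).comp_hasDerivAt c0 hX2
    rw [h0] at h1
    have h2 : (fun c => u (s, c + u (t0, c) * (s - t0))) =ᶠ[𝓝 c0] fun c => u (t0, c) := by
      filter_upwards [hnear] with c hc
      exact const_along ho hs hb hc.2 s hs'
    have h3 : HasDerivAt (fun c => u (t0, c)) (fderiv ℝ u (s, c0 + u (t0, c0) * (s - t0)) (0, 0))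
        c0 := HasDerivAt.congr_of_eventuallyEq h1 h2.symm
    have h4 : m = 0 := by
      have := h3.unique (hasDerivAt_trace ho hs hz)
      rw [← hm] at this
      rw [← this]
      exact (fderiv ℝ u (s, c0 + u (t0, c0) * (s - t0))).map_zero
    rw [h4] at h0
    norm_num at h0
  by_contra hneg
  push Not at hneg
  have hcont : ContinuousOn (fun s => 1 + m * (s - t0)) (uIcc t0 t1) := by fun_prop
  have hsub := intermediate_value_uIcc hcont
  have hmem : (0 : ℝ) ∈ uIcc (1 + m * (t0 - t0)) (1 + m * (t1 - t0)) := by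
    rw [sub_self, mul_zero, add_zero, mem_uIcc]
    right
    exact ⟨hneg, by norm_num⟩
  obtain ⟨s, hs', hs0⟩ := hsub hmem
  exact hne s hs' hs0

end Lines

end Pool.Agent.Helper5MGHD
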