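import Pool.Agent.Helper5_MGHD.Phi

set_option autoImplicit false
set_option linter.unusedSectionVars false

open Set Metric Filter Topology
open scoped NNReal ContDiff

namespace Pool.Agent.Helper5MGHD

section pos
variable {w : ℝ → ℝ} (hw : ContDiff ℝ ∞ w) (hpos : ∀ x, 0 < w x)
include hw hpos

theorem good_mono {ξ₀ cp η c : ℝ} (h : Good w ξ₀ cp) (h1 : ξ₀ ≤ η) (h2 : η ≤ c) (h3 : c ≤ cp) :
    Good w η c := by
  intro x hx
  rw [uIcc_of_le h2] at hx
  have hx' : x ∈ uIcc ξ₀ cp := by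
    rw [uIcc_of_le (h1.trans (h2.trans h3))]
    exact ⟨h1.trans hx.1, hx.2.trans h3⟩
  have h4 := h x hx'
  have hwx := hpos x
  have h5 : 0 ≤ (c - x) / w x := div_nonneg (by linarith [hx.2]) hwx.le
  have h6 : (c - x) / w x ≤ (cp - x) / w x := by gcongr
  rcases le_total 0 (deriv w x) with h7 | h7
  · have := mul_nonneg h7 h5
    linarith
  · have := mul_le_mul_of_nonpos_left h6 h7
    linarith

theorem tri_star {tp cp : ℝ} (hz : (tp, cp) ∈ OmC w) {t c : ℝ} (ht0 : 0 ≤ t) (ht : t ≤ tp)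
    (hc1 : cp + w (ft w (tp, cp)) * (t - tp) ≤ c) (hc2 : c ≤ cp) : (t, c) ∈ OmC w := by
  have _ := ht
  obtain ⟨h1, h2⟩ := ft_spec hz
  set ξ := ft w (tp, cp) with hξ
  simp only at h1 h2
  have hl := hpos ξ
  have h3 : ξ + t * w ξ ≤ c := by linarith
  have h4 : ξ ≤ c := by nlinarith [mul_nonneg ht0 hl.le]
  have hcont : ContinuousOn (fun η => η + t * w η) (Icc ξ c) :=
    (continuous_id.add (continuous_const.mul hw.continuous)).continuousOn
  have hiv := intermediate_value_Icc h4 hcont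
  obtain ⟨η, hη, hη'⟩ := hiv ⟨h3, by nlinarith [mul_nonneg ht0 (hpos c).le]⟩
  exact ⟨η, hη', good_mono hw hpos h2 hη.1 hη.2 hc2⟩

theorem ft_on_char {tp cp : ℝ} (hz : (tp, cp) ∈ OmC w) {t : ℝ} (ht0 : 0 ≤ t) (ht : t ≤ tp) :
    ft w (t, cp + w (ft w (tp, cp)) * (t - tp)) = ft w (tp, cp) := by
  obtain ⟨h1, h2⟩ := ft_spec hz
  set ξ := ft w (tp, cp) with hξ
  simp only at h1 h2
  have hl := hpos ξ
  apply ft_eq hw (fun x => (hpos x).ne')
  · linarith
  · apply good_mono hw hpos h2 le_rfl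
    · nlinarith [mul_nonneg ht0 hl.le]
    · nlinarith [mul_nonneg (sub_nonneg.2 ht) hl.le]

/-- A timelike curve with increasing time has a past limit in the explicit domain. -/
theorem past_limit {I : Set ℝ} (hIo : IsOpen I) (hIc : I.OrdConnected) (hIne : I.Nonempty)
    {δ : ℝ → ℝ × ℝ} {a b : ℝ → ℝ}
    (ha : ∀ s ∈ I, HasDerivAt (fun s => (δ s).1) (a s) s)
    (hb : ∀ s ∈ I, HasDerivAt (fun s => (δ s).2) (b s) s)
    (hmem : ∀ s ∈ I, δ s ∈ OmC w) (ht : ∀ s ∈ I, 0 < (δ s).1) (hapos : ∀ s ∈ I, 0 < a s)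
    (htl : ∀ s ∈ I, 0 < b s * (w (ft w (δ s)) * a s - b s)) :
    ∃ q ∈ OmC w, Tendsto (fun s : I => δ s) atBot (𝓝 q) := by
  have hb' : ∀ s ∈ I, 0 < b s ∧ b s < w (ft w (δ s)) * a s := by
    intro s hs
    have h1 := htl s hs
    have h2 : 0 < w (ft w (δ s)) * a s := mul_pos (hpos _) (hapos s hs)
    rcases le_or_gt (b s) 0 with h3 | h3
    · exfalso
      have := mul_nonpos_of_nonpos_of_nonneg h3 (by linarith : 0 ≤ w (ft w (δ s)) * a s - b s)
      linarith
    · exact ⟨h3, by linarith [(pos_iff_pos_of_mul_pos h1).1 h3]⟩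
  have hconv : Convex ℝ I := hIc.convex
  have hint : interior I = I := hIo.interior_eq
  have hTm : StrictMonoOn (fun s => (δ s).1) I := by
    apply strictMonoOn_of_deriv_pos hconv (fun s hs => (ha s hs).continuousAt.continuousWithinAt)
    intro s hs
    rw [hint] at hs
    rw [(ha s hs).deriv]; exact hapos s hs
  have hCm : StrictMonoOn (fun s => (δ s).2) I := by
    apply strictMonoOn_of_deriv_pos hconv (fun s hs => (hb s hs).continuousAt.continuousWithinAt)
    intro s hs
    rw [hint] at hs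
    rw [(hb s hs).deriv]; exact (hb' s hs).1
  obtain ⟨s0, hs0⟩ := hIne
  have : Nonempty I := ⟨⟨s0, hs0⟩⟩
  set tp := (δ s0).1 with htp
  set cp := (δ s0).2 with hcp
  have hp : (tp, cp) ∈ OmC w := hmem s0 hs0
  set l := w (ft w (tp, cp)) with hl
  have hlpos : 0 < l := hpos _
  -- barrier
  have hbar : ∀ s ∈ I, s ≤ s0 → 0 ≤ (δ s).2 - cp + l * (tp - (δ s).1) := by
    intro s hs hss
    have hIcc : Icc s s0 ⊆ I := hIc.out hs hs0
    have hder : ∀ r ∈ I, HasDerivAt (fun r => (δ r).2 - cp + l * (tp - (δ r).1))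
        (b r + l * (-(a r))) r := fun r hr =>
      ((hb r hr).sub_const cp).add (((ha r hr).const_sub tp).const_mul l)
    have hder2 : ∀ x, s0 - x ∈ I → HasDerivAt
        (fun x => -((δ (s0 - x)).2 - cp + l * (tp - (δ (s0 - x)).1)))
        (b (s0 - x) + l * (-(a (s0 - x)))) x := by
      intro x hx
      have h0 : HasDerivAt (fun x : ℝ => s0 - x) (-1) x := (hasDerivAt_id x).const_sub s0
      have h1 : HasDerivAt (fun x => -((δ (s0 - x)).2 - cp + l * (tp - (δ (s0 - x)).1)))
          (-((b (s0 - x) + l * (-(a (s0 - x)))) * (-1))) x :=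
        (HasDerivAt.comp (h₂ := fun r => (δ r).2 - cp + l * (tp - (δ r).1)) x
          (hder (s0 - x) hx) h0).neg
      have h2 : -((b (s0 - x) + l * (-(a (s0 - x)))) * (-1)) =
          b (s0 - x) + l * (-(a (s0 - x))) := by ring
      rwa [h2] at h1
    have hmem' : ∀ x ∈ Icc 0 (s0 - s), s0 - x ∈ I := by
      intro x hx
      apply hIcc
      constructor <;> linarith [hx.1, hx.2]
    have key := image_le_of_deriv_right_lt_deriv_boundary
      (f := fun x => -((δ (s0 - x)).2 - cp + l * (tp - (δ (s0 - x)).1)))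
      (f' := fun x => b (s0 - x) + l * (-(a (s0 - x)))) (a := 0) (b := s0 - s)
      (fun x hx => (hder2 x (hmem' x hx)).continuousAt.continuousWithinAt)
      (fun x hx => (hder2 x (hmem' x (Ico_subset_Icc_self hx))).hasDerivWithinAt)
      (B := fun _ => 0) (B' := fun _ => 0) (by simp [htp, hcp]) (fun x => hasDerivAt_const x 0)
      (by
        intro x hx hx0
        have hxI := hmem' x (Ico_subset_Icc_self hx)
        have hTle : (δ (s0 - x)).1 ≤ tp :=
          hTm.monotoneOn hxI hs0 (by linarith [hx.1])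
        have h1 : (δ (s0 - x)).2 = cp + l * ((δ (s0 - x)).1 - tp) := by linarith
        have h2 : δ (s0 - x) = ((δ (s0 - x)).1, cp + l * ((δ (s0 - x)).1 - tp)) := by
          rw [← h1]
        have h3 := ft_on_char hw hpos hp (ht _ hxI).le hTle
        rw [← hl, ← h2] at h3
        have h4 := (hb' _ hxI).2
        rw [h3, ← hl] at h4
        linarith)
    have := key (x := s0 - s) ⟨by linarith, le_rfl⟩
    simp only [sub_sub_cancel] at this
    linarith
  -- limits
  have hmonoT : Monotone fun s : I => (δ s).1 := fun s s' h => hTm.monotoneOn s.2 s'.2 h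
  have hmonoC : Monotone fun s : I => (δ s).2 := fun s s' h => hCm.monotoneOn s.2 s'.2 h
  have hbddT : BddBelow (range fun s : I => (δ s).1) :=
    ⟨0, by rintro _ ⟨s, rfl⟩; exact (ht s s.2).le⟩
  have hCle : ∀ s ∈ I, s ≤ s0 → (δ s).2 ≤ cp := fun s hs h => hCm.monotoneOn hs hs0 h
  have hTle : ∀ s ∈ I, s ≤ s0 → (δ s).1 ≤ tp := fun s hs h => hTm.monotoneOn hs hs0 h
  have hbddC : BddBelow (range fun s : I => (δ s).2) := by
    refine ⟨cp - l * tp, ?_⟩
    rintro _ ⟨s, rfl⟩
    have hltp : 0 ≤ l * tp := mul_nonneg hlpos.le (ht s0 hs0).le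
    rcases le_total (s : ℝ) s0 with h | h
    · have h1 := hbar s s.2 h
      have h2 : 0 < l * (δ s).1 := mul_pos hlpos (ht s s.2)
      simp only
      linarith
    · have h1 : cp ≤ (δ s).2 := hCm.monotoneOn hs0 s.2 h
      simp only
      linarith
  have hT := tendsto_atBot_ciInf hmonoT hbddT
  have hC := tendsto_atBot_ciInf hmonoC hbddC
  set tst := ⨅ s : I, (δ s).1 with htst
  set cst := ⨅ s : I, (δ s).2 with hcst
  have hev : ∀ᶠ s : I in atBot, (s : ℝ) ≤ s0 := eventually_le_atBot (⟨s0, hs0⟩ : I)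
  refine ⟨(tst, cst), ?_, ?_⟩
  · apply tri_star hw hpos hp
    · exact ge_of_tendsto hT (Eventually.of_forall fun s => (ht s s.2).le)
    · exact le_of_tendsto hT (hev.mono fun s hs => hTle s s.2 hs)
    · rw [← hl]
      have h1 : Tendsto (fun s : I => (δ s).2 - cp + l * (tp - (δ s).1)) atBot
          (𝓝 (cst - cp + l * (tp - tst))) :=
        (hC.sub_const cp).add ((hT.const_sub tp).const_mul l)
      have h2 := ge_of_tendsto h1 (hev.mono fun s hs => hbar s s.2 hs)
      linarith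
    · exact le_of_tendsto hC (hev.mono fun s hs => hCle s s.2 hs)
  · exact hT.prodMk_nhds hC

/-- A timelike curve in the positive-time part of the explicit domain has a limit point at one of
its ends. -/
theorem some_limit {I : Set ℝ} (hIo : IsOpen I) (hIc : I.OrdConnected) (hIne : I.Nonempty)
    {δ : ℝ → ℝ × ℝ} {a b : ℝ → ℝ}
    (ha : ∀ s ∈ I, HasDerivAt (fun s => (δ s).1) (a s) s)
    (hb : ∀ s ∈ I, HasDerivAt (fun s => (δ s).2) (b s) s)
    (hac : ContinuousOn a I)
    (hmem : ∀ s ∈ I, δ s ∈ OmC w) (ht : ∀ s ∈ I, 0 < (δ s).1)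
    (htl : ∀ s ∈ I, 0 < b s * (w (ft w (δ s)) * a s - b s)) :
    (∃ q ∈ OmC w, Tendsto (fun s : I => δ s) atBot (𝓝 q)) ∨
      ∃ q ∈ OmC w, Tendsto (fun s : I => δ s) atTop (𝓝 q) := by
  have hane : ∀ s ∈ I, a s ≠ 0 := by
    intro s hs h0
    have := htl s hs
    rw [h0] at this
    nlinarith [mul_self_nonneg (b s)]
  have hpre : IsPreconnected I := hIc.isPreconnected
  obtain ⟨s0, hs0⟩ := hIne
  have hsign : (∀ s ∈ I, 0 < a s) ∨ ∀ s ∈ I, a s < 0 := by
    rcases lt_or_gt_of_ne (hane s0 hs0) with h | h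
    · right
      intro s hs
      by_contra hneg
      push Not at hneg
      have := hpre.intermediate_value hs0 hs hac ⟨h.le, hneg⟩
      obtain ⟨r, hr, hr0⟩ := this
      exact hane r hr hr0
    · left
      intro s hs
      by_contra hneg
      push Not at hneg
      have := hpre.intermediate_value hs hs0 hac ⟨hneg, h.le⟩
      obtain ⟨r, hr, hr0⟩ := this
      exact hane r hr hr0
  rcases hsign with hsign | hsign
  · left
    exact past_limit hw hpos hIo hIc ⟨s0, hs0⟩ ha hb hmem ht hsign htl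
  · right
    -- reverse the parameter
    set I' : Set ℝ := {s | -s ∈ I} with hI'
    have hI'o : IsOpen I' := hIo.preimage continuous_neg
    have hI'c : I'.OrdConnected := by
      constructor
      intro x hx y hy z hz
      exact hIc.out hy hx ⟨neg_le_neg hz.2, neg_le_neg hz.1⟩
    have h1 := past_limit hw hpos (δ := fun s => δ (-s)) (a := fun s => -a (-s))
      (b := fun s => -b (-s)) hI'o hI'c ⟨-s0, by simpa [hI'] using hs0⟩
      (fun s hs => by
        have h5 : HasDerivAt (fun s => (δ (-s)).1) (a (-s) * (-1)) s :=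
          HasDerivAt.comp (h₂ := fun r => (δ r).1) s (ha (-s) hs) (hasDerivAt_neg s)
        rwa [mul_neg_one] at h5)
      (fun s hs => by
        have h5 : HasDerivAt (fun s => (δ (-s)).2) (b (-s) * (-1)) s :=
          HasDerivAt.comp (h₂ := fun r => (δ r).2) s (hb (-s) hs) (hasDerivAt_neg s)
        rwa [mul_neg_one] at h5)
      (fun s hs => hmem _ hs) (fun s hs => ht _ hs)
      (fun s hs => by have := hsign _ hs; linarith)
      (fun s hs => by
        have := htl _ hs
        nlinarith)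
    obtain ⟨q, hq, hlim⟩ := h1
    refine ⟨q, hq, ?_⟩
    have hn : Tendsto (fun s : I => (⟨-(s : ℝ), by
        have := s.2; simp [hI']⟩ : I')) atTop atBot := by
      rw [tendsto_atBot]
      intro r
      have hr : -(r : ℝ) ∈ I := r.2
      filter_upwards [eventually_ge_atTop (⟨-(r : ℝ), hr⟩ : I)] with s hs
      have hs' : -(r : ℝ) ≤ s := hs
      change -(s : ℝ) ≤ r
      linarith
    have h2 := hlim.comp hn
    refine h2.congr fun s => ?_
    simp

end pos

/-- reflection of the explicit domain -/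
theorem reflect_mem {w : ℝ → ℝ} (hw : ContDiff ℝ ∞ w) (hw0 : ∀ x, w x ≠ 0) {κ τ σ : ℝ}
    (hκ : κ * κ = 1) (hτ : τ * τ = 1) (hσ : σ = κ * τ) {z : ℝ × ℝ} (hz : z ∈ OmC w) :
    (τ * z.1, σ * z.2) ∈ OmC (fun y => κ * w (σ * y)) ∧
      ft (fun y => κ * w (σ * y)) (τ * z.1, σ * z.2) = σ * ft w z := by
  have hσ2 : σ * σ = 1 := by
    rw [hσ]
    have : κ * τ * (κ * τ) = (κ * κ) * (τ * τ) := by ring
    rw [this, hκ, hτ, one_mul]
  have hκ0 : κ ≠ 0 := by rintro rfl; norm_num at hκ
  have hσ0 : σ ≠ 0 := by intro h; rw [h] at hσ2; norm_num at hσ2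
  obtain ⟨h1, h2⟩ := ft_spec hz
  set ξ := ft w z with hξ
  have hw' : ContDiff ℝ ∞ fun y => κ * w (σ * y) :=
    contDiff_const.mul (hw.comp (contDiff_const.mul contDiff_id))
  have hw0' : ∀ y, κ * w (σ * y) ≠ 0 := fun y => mul_ne_zero hκ0 (hw0 _)
  have hsq : ∀ x, σ * (σ * x) = x := fun x => by rw [← mul_assoc, hσ2, one_mul]
  have e1 : σ * ξ + τ * z.1 * (κ * w (σ * (σ * ξ))) = σ * z.2 := by
    rw [hsq, ← h1]
    have : τ * z.1 * (κ * w ξ) = σ * (z.1 * w ξ) := by rw [hσ]; ring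
    rw [this]; ring
  have e2 : Good (fun y => κ * w (σ * y)) (σ * ξ) (σ * z.2) := by
    intro y hy
    have hx : σ * y ∈ uIcc ξ z.2 := by
      have h3 : σ * y ∈ (fun y => σ * y) '' uIcc (σ * ξ) (σ * z.2) := ⟨y, hy, rfl⟩
      rw [image_const_mul_uIcc, hsq, hsq] at h3
      exact h3
    have h4 := h2 _ hx
    have hder : deriv (fun y => κ * w (σ * y)) y = κ * (deriv w (σ * y) * σ) := by
      have h5 : HasDerivAt (fun y => σ * y) σ y := by
        simpa using (hasDerivAt_id y).const_mul σ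
      exact (((w_hasDerivAt hw hw0 (σ * y)).comp y h5).const_mul κ).deriv
    rw [hder]
    have hwy := hw0 (σ * y)
    have h6 : κ * (deriv w (σ * y) * σ) * ((σ * z.2 - y) / (κ * w (σ * y))) =
        deriv w (σ * y) * ((z.2 - σ * y) / w (σ * y)) := by
      field_simp
      have : σ * (σ * z.2 - y) = z.2 - σ * y := by
        rw [mul_sub, hsq]
      rw [← this]
      ring
    rw [h6]
    exact h4
  exact ⟨⟨σ * ξ, e1, e2⟩, ft_eq hw' hw0' e1 e2⟩

theorem cauchy_explicit {w : ℝ → ℝ} (hw : ContDiff ℝ ∞ w) (hw0 : ∀ x, w x ≠ 0) {φ₀ : ℝ → ℝ}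
    (hφ : ContDiff ℝ ∞ φ₀) (I : Set ℝ) (γ : ℝ → ℝ × ℝ)
    (h : IsInextendibleTimelikeCurve (OmX w) (PhiX φ₀ w) I γ) :
    ∃! s, s ∈ I ∧ (γ s).1 = 0 := by
  have hIo := h.isOpen
  have hIc := h.ordConnected
  have hpre : IsPreconnected I := hIc.isPreconnected
  have hγd : ∀ s ∈ I, HasDerivAt γ (deriv γ s) s := fun s hs =>
    ((h.contDiffOn.contDiffAt (hIo.mem_nhds hs)).differentiableAt one_ne_zero).hasDerivAt
  have h1d : ∀ s ∈ I, HasDerivAt (fun s => (γ s).1) (deriv γ s).1 s := fun s hs =>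
    (hasFDerivAt_fst (p := γ s)).comp_hasDerivAt s (hγd s hs)
  have h2d : ∀ s ∈ I, HasDerivAt (fun s => (γ s).2) (deriv γ s).2 s := fun s hs =>
    (hasFDerivAt_snd (p := γ s)).comp_hasDerivAt s (hγd s hs)
  have hdc : ContinuousOn (deriv γ) I := h.contDiffOn.continuousOn_deriv_of_isOpen hIo le_rfl
  have htl : ∀ s ∈ I, 0 < (2 * (deriv γ s).1 + (deriv γ s).2) *
      (w (ft w (toC (γ s))) * (deriv γ s).1 - (2 * (deriv γ s).1 + (deriv γ s).2)) := by
    intro s hs
    have h1 := h.timelike s hs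
    have h2 := Psi_PhiX hw hw0 hφ (h.mem s hs)
    rw [gQuad_neg_iff _ (by rw [h2]; intro h3; exact hw0 (ft w (toC (γ s))) (by linarith)), h2]
      at h1
    have h3 : (2 + (w (ft w (toC (γ s))) - 4)) * (deriv γ s).1 - (deriv γ s).2 =
        w (ft w (toC (γ s))) * (deriv γ s).1 - (2 * (deriv γ s).1 + (deriv γ s).2) := by ring
    rwa [h3] at h1
  have hane : ∀ s ∈ I, (deriv γ s).1 ≠ 0 := by
    intro s hs h0
    have := htl s hs
    rw [h0] at this
    nlinarith [mul_self_nonneg (deriv γ s).2]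
  -- existence
  have hex : ∃ s ∈ I, (γ s).1 = 0 := by
    by_contra hno
    push Not at hno
    obtain ⟨s0, hs0⟩ := h.nonempty
    have hT : ContinuousOn (fun s => (γ s).1) I := fun s hs =>
      (h1d s hs).continuousAt.continuousWithinAt
    -- sign of time
    obtain ⟨τ, hτ, hτpos⟩ : ∃ τ : ℝ, τ * τ = 1 ∧ ∀ s ∈ I, 0 < τ * (γ s).1 := by
      rcases lt_or_gt_of_ne (hno s0 hs0) with h5 | h5
      · refine ⟨-1, by norm_num, fun s hs => ?_⟩
        by_contra hneg
        push Not at hneg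
        obtain ⟨r, hr, hr0⟩ := hpre.intermediate_value hs0 hs hT
          (show (0 : ℝ) ∈ Icc _ _ from ⟨h5.le, by linarith⟩)
        exact hno r hr hr0
      · refine ⟨1, by norm_num, fun s hs => ?_⟩
        by_contra hneg
        push Not at hneg
        obtain ⟨r, hr, hr0⟩ := hpre.intermediate_value hs hs0 hT
          (show (0 : ℝ) ∈ Icc _ _ from ⟨by linarith, h5.le⟩)
        exact hno r hr hr0
    -- sign of `w`
    obtain ⟨κ, hκ, hκpos⟩ : ∃ κ : ℝ, κ * κ = 1 ∧ ∀ x, 0 < κ * w x := by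
      have hc := hw.continuous
      rcases lt_or_gt_of_ne (hw0 0) with h5 | h5
      · refine ⟨-1, by norm_num, fun x => ?_⟩
        by_contra hneg
        push Not at hneg
        obtain ⟨r, hr0⟩ := mem_range_of_exists_le_of_exists_ge hc ⟨0, h5.le⟩
          ⟨x, (by linarith : (0 : ℝ) ≤ w x)⟩
        exact hw0 r hr0
      · refine ⟨1, by norm_num, fun x => ?_⟩
        by_contra hneg
        push Not at hneg
        obtain ⟨r, hr0⟩ := mem_range_of_exists_le_of_exists_ge hc
          ⟨x, (by linarith : w x ≤ (0 : ℝ))⟩ ⟨0, h5.le⟩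
        exact hw0 r hr0
    set σ := κ * τ with hσ
    have hσ2 : σ * σ = 1 := by
      rw [hσ]
      have : κ * τ * (κ * τ) = (κ * κ) * (τ * τ) := by ring
      rw [this, hκ, hτ, one_mul]
    set w' : ℝ → ℝ := fun y => κ * w (σ * y) with hw'
    have hw's : ContDiff ℝ ∞ w' :=
      contDiff_const.mul (hw.comp (contDiff_const.mul contDiff_id))
    have hw'pos : ∀ y, 0 < w' y := fun y => hκpos _
    set δ : ℝ → ℝ × ℝ := fun s => (τ * (γ s).1, σ * ((γ s).2 + 2 * (γ s).1)) with hδ
    have hrefl : ∀ s ∈ I, δ s ∈ OmC w' ∧ ft w' (δ s) = σ * ft w (toC (γ s)) := fun s hs =>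
      reflect_mem hw hw0 hκ hτ hσ (h.mem s hs)
    have hback : ∀ q ∈ OmC w', chg τ σ q ∈ OmX w := by
      intro q hq
      have h6 := (reflect_mem hw's (fun y => (hw'pos y).ne') hκ hτ hσ hq).1
      have h7 : (fun y => κ * w' (σ * y)) = w := by
        funext y
        simp only [hw']
        rw [← mul_assoc, hκ, one_mul, ← mul_assoc, hσ2, one_mul]
      rw [h7] at h6
      have h8 : toC (chg τ σ q) = (τ * q.1, σ * q.2) := by
        unfold toC chg; ext
        · rfl
        · simp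
      unfold OmX
      rw [mem_preimage, h8]
      exact h6
    have hlimits := some_limit hw's hw'pos hIo hIc ⟨s0, hs0⟩ (δ := δ)
      (a := fun s => τ * (deriv γ s).1) (b := fun s => σ * ((deriv γ s).2 + 2 * (deriv γ s).1))
      (fun s hs => (h1d s hs).const_mul τ)
      (fun s hs => ((h2d s hs).add ((h1d s hs).const_mul 2)).const_mul σ)
      ((continuousOn_const.mul hdc.fst))
      (fun s hs => (hrefl s hs).1) (fun s hs => hτpos s hs)
      (fun s hs => by
        have h6 := htl s hs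
        have h7 : w' (ft w' (δ s)) = κ * w (ft w (toC (γ s))) := by
          rw [(hrefl s hs).2]
          simp only [hw']
          rw [← mul_assoc σ σ, hσ2, one_mul]
        rw [h7]
        have h8 : σ * ((deriv γ s).2 + 2 * (deriv γ s).1) *
            (κ * w (ft w (toC (γ s))) * (τ * (deriv γ s).1) -
              σ * ((deriv γ s).2 + 2 * (deriv γ s).1)) =
            (σ * σ) * ((2 * (deriv γ s).1 + (deriv γ s).2) *
      (w (ft w (toC (γ s))) * (deriv γ s).1 - (2 * (deriv γ s).1 + (deriv γ s).2))) := by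
          rw [hσ]; ring
        rw [h8, hσ2, one_mul]
        exact h6)
    have hchg : ∀ s : I, chg τ σ (δ s) = γ s := fun s => chg_chgInv hτ hσ2 (γ s)
    rcases hlimits with ⟨q, hq, hlim⟩ | ⟨q, hq, hlim⟩
    · apply h.no_endpoint_bot
      refine ⟨chg τ σ q, hback q hq, ?_⟩
      exact (((continuous_chg τ σ).tendsto q).comp hlim).congr hchg
    · apply h.no_endpoint_top
      refine ⟨chg τ σ q, hback q hq, ?_⟩
      exact (((continuous_chg τ σ).tendsto q).comp hlim).congr hchg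
  obtain ⟨s, hs, hs0⟩ := hex
  refine ⟨s, ⟨hs, hs0⟩, ?_⟩
  rintro r ⟨hr, hr0⟩
  by_contra hne
  have key : ∀ x ∈ I, ∀ y ∈ I, x < y → (γ x).1 = 0 → (γ y).1 = 0 → False := by
    intro x hx y hy hxy hx0 hy0
    obtain ⟨z, hz, hz0⟩ := exists_hasDerivAt_eq_zero hxy (f := fun s => (γ s).1)
      (f' := fun s => (deriv γ s).1)
      (fun z hz => (h1d z (hIc.out hx hy hz)).continuousAt.continuousWithinAt)
      (hx0.trans hy0.symm) (fun z hz => h1d z (hIc.out hx hy (Ioo_subset_Icc_self hz)))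
    exact hane z (hIc.out hx hy (Ioo_subset_Icc_self hz)) hz0
  rcases lt_or_gt_of_ne hne with h9 | h9
  · exact key r hr s hs h9 hr0 hs0
  · exact key s hs r hr h9 hs0 hr0

end Pool.Agent.Helper5MGHD
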