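import Pool.Agent.Helper5_MGHD.Entry

set_option autoImplicit false

open Set Metric Filter Topology
open scoped NNReal

namespace Pool.Agent.Helper5MGHD

theorem contDiffOn_one_of_hasDerivAt {s : Set ℝ} (hs : IsOpen s) {f D : ℝ → ℝ}
    (h : ∀ t ∈ s, HasDerivAt f (D t) t) (hD : ContinuousOn D s) : ContDiffOn ℝ 1 f s := by
  have h1 : (1 : WithTop ℕ∞) = 0 + 1 := by norm_num
  rw [h1, contDiffOn_succ_iff_deriv_of_isOpen hs]
  refine ⟨fun t ht => (h t ht).differentiableAt.differentiableWithinAt, by simp, ?_⟩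
  rw [contDiffOn_zero]
  exact hD.congr fun t ht => (h t ht).deriv

section
variable {Ω : Set (ℝ × ℝ)} {u : ℝ × ℝ → ℝ}

/-- The outgoing characteristic (straight segment) below a point of the positive part lies in
`Ω`. -/
theorem char_mem (h : IsSol Ω u) {tp cp : ℝ} (hp : (tp, cp) ∈ posPart Ω u) :
    ∀ t ∈ Icc 0 tp, (t, cp + u (tp, cp) * (t - tp)) ∈ Ω := by
  by_contra hcon
  set l := u (tp, cp) with hl
  have ho := h.isOpen
  have hs := h.smooth
  -- last exit time
  set B : Set ℝ := {t | t ∈ Icc 0 tp ∧ (t, cp + l * (t - tp)) ∉ Ω} with hB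
  have hBne : B.Nonempty := by
    push Not at hcon
    obtain ⟨t, ht, ht'⟩ := hcon
    exact ⟨t, ht, ht'⟩
  have hBc : IsCompact B := by
    have h1 : B = Icc 0 tp ∩ (fun t => (t, cp + l * (t - tp))) ⁻¹' Ωᶜ := rfl
    rw [h1]
    exact isCompact_Icc.inter_right (ho.isClosed_compl.preimage (by fun_prop))
  set tq := sSup B with htq
  have htqB : tq ∈ B := hBc.sSup_mem hBne
  have htq0 : 0 ≤ tq := htqB.1.1
  have htqp : tq < tp := by
    rcases eq_or_lt_of_le htqB.1.2 with h1 | h1
    · exfalso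
      apply htqB.2
      rw [h1]
      simpa using hp.1
    · exact h1
  have hgood : ∀ t, tq < t → t ≤ tp → (t, cp + l * (t - tp)) ∈ Ω := by
    intro t h1 h2
    by_contra h3
    have : t ≤ tq := le_csSup hBc.bddAbove ⟨⟨htq0.trans h1.le, h2⟩, h3⟩
    linarith
  -- a small interval around `cp`
  have hUo := isOpen_posPart ho hs
  obtain ⟨r0, hr0, hball⟩ := Metric.isOpen_iff.1 hUo _ hp
  set r1 := r0 / 2 with hr1
  have hr1pos : 0 < r1 := by linarith
  have hmemJ : ∀ x, |x - cp| ≤ r1 → (tp, x) ∈ posPart Ω u := by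
    intro x hx
    apply hball
    rw [mem_ball, Prod.dist_eq]
    simp only [dist_self, Real.dist_eq]
    rw [max_lt_iff]
    exact ⟨hr0, by linarith⟩
  set J : Set ℝ := Icc (cp - r1) (cp + r1) with hJ
  have hJmem : ∀ x, x ∈ J ↔ |x - cp| ≤ r1 := by
    intro x
    rw [hJ, mem_Icc, abs_le]
    constructor <;> rintro ⟨h1, h2⟩ <;> constructor <;> linarith
  have hutc : ContinuousOn (fun x => u (tp, x)) J := by
    apply hs.continuousOn.comp (by fun_prop)
    intro x hx
    exact (hmemJ x ((hJmem x).1 hx)).1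
  have hfd : ContinuousOn (fderiv ℝ u) Ω := hs.continuousOn_fderiv_of_isOpen ho le_rfl
  have hucc : ContinuousOn (fun x => fderiv ℝ u (tp, x) (0, 1)) J := by
    have h1 : ContinuousOn (fun x => fderiv ℝ u (tp, x)) J := by
      apply hfd.comp (by fun_prop)
      intro x hx
      exact (hmemJ x ((hJmem x).1 hx)).1
    exact h1.clm_apply continuousOn_const
  have hJne : J.Nonempty := ⟨cp, (hJmem cp).2 (by simp [hr1pos.le])⟩
  obtain ⟨xm, hxm, hxm'⟩ := isCompact_Icc.exists_isMinOn hJne hutc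
  set m0 := u (tp, xm) with hm0
  have hm0pos : 0 < m0 := (hmemJ xm ((hJmem xm).1 hxm)).2
  have hm0le : ∀ x ∈ J, m0 ≤ u (tp, x) := fun x hx => hxm' hx
  obtain ⟨M, hM⟩ := isCompact_Icc.exists_bound_of_continuousOn hucc
  have hM0 : 0 ≤ M := (norm_nonneg _).trans (hM cp ((hJmem cp).2 (by simp [hr1pos.le])))
  -- the open set of good parameters
  set V : Set (ℝ × ℝ) := {z | |z.2 - cp| < r1 ∧ (z.1, z.2 + u (tp, z.2) * (z.1 - tp)) ∈ Ω}
    with hV
  have hVo : IsOpen V := by
    rw [isOpen_iff_mem_nhds]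
    rintro ⟨s, x⟩ ⟨hz1, hz2⟩
    simp only at hz1 hz2
    have h1 : ∀ᶠ z : ℝ × ℝ in 𝓝 (s, x), |z.2 - cp| < r1 := by
      have hc : Continuous fun z : ℝ × ℝ => |z.2 - cp| := by fun_prop
      exact hc.continuousAt.eventually_lt continuousAt_const hz1
    have hxJ : J ∈ 𝓝 x := by
      rw [abs_lt] at hz1
      exact Icc_mem_nhds (by linarith [hz1.1]) (by linarith [hz1.2])
    have h2 : ContinuousAt (fun z : ℝ × ℝ => u (tp, z.2)) (s, x) :=
      ContinuousAt.comp (g := fun c => u (tp, c)) (f := fun z : ℝ × ℝ => z.2)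
        (hutc.continuousAt hxJ) continuousAt_snd
    have h3 : ContinuousAt
        (fun z : ℝ × ℝ => ((z.1, z.2 + u (tp, z.2) * (z.1 - tp)) : ℝ × ℝ)) (s, x) :=
      continuousAt_fst.prodMk (continuousAt_snd.add (h2.mul (continuousAt_fst.sub
        continuousAt_const)))
    exact h1.and (h3.eventually_mem (ho.mem_nhds hz2))
  have hqV : (tq, cp) ∈ Vᶜ := fun hmem => htqB.2 hmem.2
  set d : ℝ → ℝ := fun s => infDist (s, cp) Vᶜ with hd
  have hdc : Continuous d := by
    exact (continuous_infDist_pt _).comp (by fun_prop)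
  have hdnn : ∀ s, 0 ≤ d s := fun s => infDist_nonneg
  have hdpos : ∀ s, tq < s → s ≤ tp → 0 < d s := by
    intro s h1 h2
    apply (hVo.isClosed_compl.notMem_iff_infDist_pos ⟨_, hqV⟩).1
    rw [notMem_compl_iff]
    exact ⟨by simpa using hr1pos, hgood s h1 h2⟩
  have hdV : ∀ s x, |x - cp| < d s → (s, x) ∈ V := by
    intro s x hx
    by_contra hn
    have h1 : d s ≤ dist (s, cp) (s, x) := infDist_le_dist_of_mem hn
    rw [Prod.dist_eq] at h1
    simp only [dist_self, Real.dist_eq] at h1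
    rw [max_eq_right (abs_nonneg _), abs_sub_comm] at h1
    linarith
  -- running infimum
  set g : ℝ → ℝ := fun t => sInf ((fun θ => d (t + θ * (tp - t))) '' Icc 0 1) with hg
  have hgc : Continuous g := by
    apply IsCompact.continuous_sInf (f := fun t θ => d (t + θ * (tp - t))) isCompact_Icc
    exact hdc.comp (by fun_prop)
  have hgle : ∀ t s, t ≤ s → s ≤ tp → g t ≤ d s := by
    intro t s h1 h2
    have hbdd : BddBelow ((fun θ => d (t + θ * (tp - t))) '' Icc 0 1) :=
      ⟨0, by rintro _ ⟨θ, -, rfl⟩; exact hdnn _⟩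
    apply csInf_le hbdd
    rcases eq_or_lt_of_le (h1.trans h2) with h3 | h3
    · refine ⟨0, by simp, ?_⟩
      have : s = t := le_antisymm (by linarith) h1
      simp [this]
    · have h4 : 0 < tp - t := by linarith
      refine ⟨(s - t) / (tp - t), ⟨div_nonneg (by linarith) h4.le, ?_⟩, ?_⟩
      · rw [div_le_one h4]; linarith
      · have : t + (s - t) / (tp - t) * (tp - t) = s := by field_simp; ring
        simp only
        rw [this]
  have hgatt : ∀ t, t ≤ tp → ∃ s ∈ Icc t tp, g t = d s := by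
    intro t ht
    have hc : IsCompact ((fun θ => d (t + θ * (tp - t))) '' Icc (0 : ℝ) 1) :=
      isCompact_Icc.image (hdc.comp (by fun_prop))
    obtain ⟨θ, hθ, hθ'⟩ := hc.sInf_mem (nonempty_Icc.2 zero_le_one |>.image _)
    refine ⟨t + θ * (tp - t), ⟨?_, ?_⟩, hθ'.symm⟩
    · have : 0 ≤ θ * (tp - t) := mul_nonneg hθ.1 (by linarith)
      linarith
    · have : θ * (tp - t) ≤ 1 * (tp - t) := mul_le_mul_of_nonneg_right hθ.2 (by linarith)
      linarith
  have hgpos : ∀ t, tq < t → t ≤ tp → 0 < g t := by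
    intro t h1 h2
    obtain ⟨s, hs1, hs2⟩ := hgatt t h2
    rw [hs2]
    exact hdpos s (lt_of_lt_of_le h1 hs1.1) hs1.2
  have hgmono : ∀ t t', t ≤ t' → t' ≤ tp → g t ≤ g t' := by
    intro t t' h1 h2
    obtain ⟨s, hs1, hs2⟩ := hgatt t' h2
    rw [hs2]
    exact hgle t s (h1.trans hs1.1) hs1.2
  have hgnn : ∀ t, t ≤ tp → 0 ≤ g t := by
    intro t h1
    obtain ⟨s, hs1, hs2⟩ := hgatt t h1
    rw [hs2]
    exact hdnn s
  -- the constant ε
  set D := tp - tq with hD
  have hDpos : 0 < D := by rw [hD]; linarith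
  set G := g tp with hG
  have hGpos : 0 < G := hgpos tp htqp le_rfl
  set ε := min (1 / (2 * D)) (m0 / (2 * (G * (1 + M * D)))) with hε
  have hden : 0 < G * (1 + M * D) := by positivity
  have hεpos : 0 < ε := lt_min (by positivity) (by positivity)
  have hε1 : ε * D ≤ 1 / 2 := by
    calc ε * D ≤ 1 / (2 * D) * D := by gcongr; exact min_le_left _ _
      _ = 1 / 2 := by field_simp
  have hε2 : ε * (G * (1 + M * D)) < m0 := by
    calc ε * (G * (1 + M * D)) ≤ m0 / (2 * (G * (1 + M * D))) * (G * (1 + M * D)) := by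
          gcongr; exact min_le_right _ _
      _ = m0 / 2 := by field_simp
      _ < m0 := by linarith
  -- the function ζ
  set ζ : ℝ → ℝ := fun t => ε * ∫ s in tq..t, g s with hζ
  have hζd : ∀ t, HasDerivAt ζ (ε * g t) t := fun t =>
    (intervalIntegral.integral_hasDerivAt_right (hgc.intervalIntegrable _ _)
      (hgc.stronglyMeasurableAtFilter _ _) hgc.continuousAt).const_mul ε
  have hζc : Continuous ζ := continuous_iff_continuousAt.2 fun t => (hζd t).continuousAt
  have hζq : ζ tq = 0 := by simp [hζ]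
  have hζnn : ∀ t, tq ≤ t → t ≤ tp → 0 ≤ ζ t := by
    intro t h1 h2
    apply mul_nonneg hεpos.le
    exact intervalIntegral.integral_nonneg h1 fun s hs => hgnn s (hs.2.trans h2)
  have hζle : ∀ t, tq ≤ t → t ≤ tp → ζ t ≤ g t / 2 := by
    intro t h1 h2
    have h3 : ∫ s in tq..t, g s ≤ ∫ s in tq..t, g t :=
      intervalIntegral.integral_mono_on h1 (hgc.intervalIntegrable _ _)
        (continuous_const.intervalIntegrable _ _) fun s hs => hgmono s t hs.2 h2
    rw [intervalIntegral.integral_const, smul_eq_mul] at h3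
    have h4 := hgnn t h2
    calc ζ t = ε * ∫ s in tq..t, g s := rfl
      _ ≤ ε * ((t - tq) * g t) := by gcongr
      _ ≤ ε * (D * g t) := by
          gcongr
          rw [hD]; linarith
      _ = (ε * D) * g t := by ring
      _ ≤ 1 / 2 * g t := by gcongr
      _ = g t / 2 := by ring
  -- the points (s, cp - ζ t) for s ∈ [t, tp]
  have hVmem : ∀ t, tq < t → t ≤ tp → ∀ s ∈ Icc t tp, (s, cp - ζ t) ∈ V := by
    intro t h1 h2 s hs'
    apply hdV
    have h3 : |cp - ζ t - cp| = ζ t := by
      rw [show cp - ζ t - cp = -ζ t by ring, abs_neg, abs_of_nonneg (hζnn t h1.le h2)]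
    rw [h3]
    have h4 := hζle t h1.le h2
    have h5 := hgpos t h1 h2
    have h6 := hgle t s hs'.1 hs'.2
    linarith
  have hxiJ : ∀ t, tq < t → t ≤ tp → |cp - ζ t - cp| < r1 := fun t h1 h2 =>
    (hVmem t h1 h2 t ⟨le_rfl, h2⟩).1
  -- the curve near `tq`
  set ξ : ℝ → ℝ := fun t => cp - ζ t with hξ
  have hξd : ∀ t, HasDerivAt ξ (-(ε * g t)) t := fun t => (hζd t).const_sub cp
  set C : ℝ → ℝ := fun t => ξ t + u (tp, ξ t) * (t - tp) with hC
  set E : ℝ → ℝ := fun t => u (tp, ξ t) -
    ε * g t * (1 + fderiv ℝ u (tp, ξ t) (0, 1) * (t - tp)) with hE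
  have hξΩ : ∀ t, |ξ t - cp| < r1 → (tp, ξ t) ∈ Ω := fun t ht => (hmemJ _ ht.le).1
  have hCd : ∀ t, |ξ t - cp| < r1 → HasDerivAt C (E t) t := by
    intro t ht
    have h1 : HasDerivAt (fun t => u (tp, ξ t))
        (fderiv ℝ u (tp, ξ t) (0, 1) * (-(ε * g t))) t :=
      HasDerivAt.comp (h₂ := fun x => u (tp, x)) t (hasDerivAt_trace ho hs (hξΩ t ht)) (hξd t)
    have h2 : HasDerivAt (fun t : ℝ => t - tp) 1 t := (hasDerivAt_id t).sub_const tp
    have h3 := (hξd t).add (h1.mul h2)
    have h4 : E t = -(ε * g t) + (fderiv ℝ u (tp, ξ t) (0, 1) * (-(ε * g t)) * (t - tp) +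
        u (tp, ξ t) * 1) := by
      simp only [hE]
      ring
    rw [h4]
    exact h3
  have hseg : ∀ t, tq < t → t ≤ tp → ∀ s ∈ uIcc tp t, (s, ξ t + u (tp, ξ t) * (s - tp)) ∈ Ω := by
    intro t h1 h2 s hs'
    rw [uIcc_of_ge h2] at hs'
    exact (hVmem t h1 h2 s hs').2
  have hCu : ∀ t, tq < t → t ≤ tp → u (t, C t) = u (tp, ξ t) := by
    intro t h1 h2
    exact const_along ho hs h.burgers (hseg t h1 h2) t right_mem_uIcc
  have hCΩ : ∀ t, tq < t → t ≤ tp → (t, C t) ∈ posPart Ω u := by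
    intro t h1 h2
    refine ⟨hseg t h1 h2 t right_mem_uIcc, ?_⟩
    rw [hCu t h1 h2]
    exact (hmemJ _ (hxiJ t h1 h2).le).2
  have hE1 : ∀ t, tq < t → t ≤ tp → 0 < E t ∧ E t < u (t, C t) := by
    intro t h1 h2
    have hjac := jacobian_pos ho hs h.burgers (hξΩ t (hxiJ t h1 h2)) (hseg t h1 h2)
    have hbd : |fderiv ℝ u (tp, ξ t) (0, 1)| ≤ M :=
      hM (ξ t) ((hJmem _).2 (hxiJ t h1 h2).le)
    have hjac2 : 1 + fderiv ℝ u (tp, ξ t) (0, 1) * (t - tp) ≤ 1 + M * D := by
      have h3 : fderiv ℝ u (tp, ξ t) (0, 1) * (t - tp) ≤ M * D := by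
        calc fderiv ℝ u (tp, ξ t) (0, 1) * (t - tp)
            ≤ |fderiv ℝ u (tp, ξ t) (0, 1) * (t - tp)| := le_abs_self _
          _ = |fderiv ℝ u (tp, ξ t) (0, 1)| * |t - tp| := abs_mul _ _
          _ ≤ M * D := by
            have : |t - tp| ≤ D := by
              rw [abs_le, hD]; constructor <;> linarith
            gcongr
      linarith
    have hgt := hgpos t h1 h2
    have hgG : g t ≤ G := hgmono t tp h2 le_rfl
    have hprod : 0 < ε * g t * (1 + fderiv ℝ u (tp, ξ t) (0, 1) * (t - tp)) := by positivity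
    have hprod2 : ε * g t * (1 + fderiv ℝ u (tp, ξ t) (0, 1) * (t - tp)) < m0 := by
      calc ε * g t * (1 + fderiv ℝ u (tp, ξ t) (0, 1) * (t - tp))
          ≤ ε * G * (1 + M * D) := by gcongr
        _ = ε * (G * (1 + M * D)) := by ring
        _ < m0 := hε2
    have hm := hm0le (ξ t) ((hJmem _).2 (hxiJ t h1 h2).le)
    rw [hCu t h1 h2]
    simp only [hE]
    constructor <;> linarith
  -- continuation to the future
  have hCtp : C tp = ξ tp := by simp [hC]
  have hp1 := hCΩ tp htqp le_rfl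
  obtain ⟨K, w, hwlip, hw0, hwpos, hwle, hwp⟩ := lip_minorant (posPart Ω u) hUo u
    (hs.continuousOn.mono fun z hz => hz.1) (fun z hz => hz.2) (tp, C tp) hp1 (E tp)
    (hE1 tp htqp le_rfl).1 (hE1 tp htqp le_rfl).2
  obtain ⟨Y, hY1, hY2⟩ := ode_global (fun t x => w (t, x)) K ⟨E tp, (hE1 tp htqp le_rfl).1.le⟩
    (fun x => hwlip.continuous.comp (by fun_prop))
    (fun t => by
      have h1 := hwlip.comp (LipschitzWith.prodMk_left t (β := ℝ))
      rw [mul_one] at h1
      exact h1)
    (fun t x => by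
      rw [Real.norm_eq_abs, abs_of_nonneg (hwle _).1]
      exact (hwle _).2) tp (C tp)
  have hYc : Continuous Y := continuous_iff_continuousAt.2 fun t => (hY2 t).continuousAt
  -- the glued curve
  set full : ℝ → ℝ := fun t => if t ≤ tp then C t else Y t with hfull
  set Df : ℝ → ℝ := fun t => if t ≤ tp then E t else w (t, Y t) with hDf
  have hfullIic : EqOn full C (Iic tp) := fun t ht => if_pos ht
  have hfullIci : EqOn full Y (Ici tp) := by
    intro t ht
    rcases eq_or_lt_of_le (show tp ≤ t from ht) with h1 | h1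
    · subst h1
      simp only [hfull]
      rw [if_pos le_rfl, hY1]
    · simp only [hfull]
      rw [if_neg (not_le.2 h1)]
  have hDfIic : EqOn Df E (Iic tp) := fun t ht => if_pos ht
  have hDfIci : EqOn Df (fun t => w (t, Y t)) (Ici tp) := by
    intro t ht
    rcases eq_or_lt_of_le (show tp ≤ t from ht) with h1 | h1
    · subst h1
      simp only [hDf]
      rw [if_pos le_rfl, hY1, hwp]
    · simp only [hDf]
      rw [if_neg (not_le.2 h1)]
  have hEc : ∀ t, |ξ t - cp| < r1 → ContinuousAt E t := by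
    intro t ht
    have hξc : ContinuousAt ξ t := (hξd t).continuousAt
    have hxJ : J ∈ 𝓝 (ξ t) := by
      rw [abs_lt] at ht
      exact Icc_mem_nhds (by linarith [ht.1]) (by linarith [ht.2])
    have h1 : ContinuousAt (fun t => u (tp, ξ t)) t :=
      ContinuousAt.comp (g := fun c => u (tp, c)) (hutc.continuousAt hxJ) hξc
    have h2 : ContinuousAt (fun t => fderiv ℝ u (tp, ξ t) (0, 1)) t :=
      ContinuousAt.comp (g := fun c => fderiv ℝ u (tp, c) (0, 1)) (hucc.continuousAt hxJ) hξc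
    have h3 : ContinuousAt (fun t : ℝ => t - tp) t := by fun_prop
    exact h1.sub ((continuousAt_const.mul hgc.continuousAt).mul
      (continuousAt_const.add (h2.mul h3)))
  have hwY : Continuous fun t => w (t, Y t) := hwlip.continuous.comp (by fun_prop)
  have hfulld : ∀ t ∈ Ioi tq, HasDerivAt full (Df t) t := by
    intro t ht
    rcases lt_trichotomy t tp with h1 | h1 | h1
    · have h2 : full =ᶠ[𝓝 t] C := by
        filter_upwards [Iic_mem_nhds h1] with s hs' using hfullIic hs'
      rw [hDfIic h1.le]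
      exact (hCd t (hxiJ t ht h1.le)).congr_of_eventuallyEq h2
    · subst h1
      have h2 : HasDerivWithinAt full (Df t) (Iic t) t := by
        rw [hDfIic self_mem_Iic]
        exact ((hCd t (hxiJ t ht le_rfl)).hasDerivWithinAt).congr hfullIic (hfullIic self_mem_Iic)
      have h3 : HasDerivWithinAt full (Df t) (Ici t) t := by
        rw [hDfIci self_mem_Ici]
        exact (hY2 t).hasDerivWithinAt.congr hfullIci (hfullIci self_mem_Ici)
      have := h2.union h3
      rwa [Iic_union_Ici, hasDerivWithinAt_univ] at this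
    · have h2 : full =ᶠ[𝓝 t] Y := by
        filter_upwards [Ici_mem_nhds h1] with s hs' using hfullIci hs'
      rw [hDfIci h1.le]
      exact (hY2 t).congr_of_eventuallyEq h2
  have hDfc : ContinuousOn Df (Ioi tq) := by
    intro t ht
    apply ContinuousAt.continuousWithinAt
    rcases lt_trichotomy t tp with h1 | h1 | h1
    · have h2 : Df =ᶠ[𝓝 t] E := by
        filter_upwards [Iic_mem_nhds h1] with s hs' using hDfIic hs'
      exact (hEc t (hxiJ t ht h1.le)).congr h2.symm
    · subst h1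
      rw [continuousAt_iff_continuous_left_right]
      constructor
      · exact ((hEc t (hxiJ t ht le_rfl)).continuousWithinAt).congr hDfIic (hDfIic self_mem_Iic)
      · exact hwY.continuousWithinAt.congr hDfIci (hDfIci self_mem_Ici)
    · have h2 : Df =ᶠ[𝓝 t] fun t => w (t, Y t) := by
        filter_upwards [Ici_mem_nhds h1] with s hs' using hDfIci hs'
      exact hwY.continuousAt.congr h2.symm
  have hfullq : full tq = cp + l * (tq - tp) := by
    rw [hfullIic htqp.le]
    simp [hC, hξ, hζq, hl]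
  have hfullcq : ContinuousAt full tq := by
    have h2 : full =ᶠ[𝓝 tq] C := by
      filter_upwards [Iic_mem_nhds htqp] with s hs' using hfullIic hs'
    have h3 : |ξ tq - cp| < r1 := by
      simp only [hξ]
      rw [hζq]
      simpa using hr1pos
    exact (hCd tq h3).continuousAt.congr h2.symm
  have hfullc : ContinuousOn full (Ici tq) := by
    intro t ht
    rcases eq_or_lt_of_le (show tq ≤ t from ht) with h1 | h1
    · rw [← h1]; exact hfullcq.continuousWithinAt
    · exact (hfulld t h1).continuousAt.continuousWithinAt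
  have hno := no_entry h htq0 hfullc (contDiffOn_one_of_hasDerivAt isOpen_Ioi hfulld hDfc)
    (by rw [hfullq]; exact fun hmem => htqB.2 hmem.1)
    (fun t ht hmem => by
      rw [(hfulld t ht).deriv]
      rcases le_or_gt t tp with h1 | h1
      · rw [hDfIic h1, hfullIic h1]
        exact hE1 t ht h1
      · rw [hfullIci h1.le] at hmem ⊢
        rw [hDfIci h1.le]
        exact hwpos _ hmem)
  apply hno tp htqp
  rw [hfullIic self_mem_Iic]
  exact hp1

/-- `u` is constant along the outgoing characteristic down to `t = 0`. -/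
theorem char_const (h : IsSol Ω u) {tp cp : ℝ} (hp : (tp, cp) ∈ posPart Ω u) :
    ∀ t ∈ Icc 0 tp, u (t, cp + u (tp, cp) * (t - tp)) = u (tp, cp) := by
  intro t ht
  apply const_along h.isOpen h.smooth h.burgers (t1 := 0) _ t
  · rw [uIcc_of_ge (ht.1.trans ht.2)]; exact ht
  · intro s hs
    rw [uIcc_of_ge (ht.1.trans ht.2)] at hs
    exact char_mem h hp s hs

/-- The past triangle of a point of the positive part lies in the positive part. -/
theorem triangle (h : IsSol Ω u) {tp cp : ℝ} (hp : (tp, cp) ∈ posPart Ω u) {t c : ℝ}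
    (ht : t ∈ Icc 0 tp) (hc1 : cp + u (tp, cp) * (t - tp) ≤ c) (hc2 : c ≤ cp) :
    (t, c) ∈ posPart Ω u := by
  have hv := vertical_pos h hp
  have hcont : ContinuousOn (fun τ => cp + u (τ, cp) * (t - τ)) (Icc t tp) := by
    have h1 : ContinuousOn (fun τ => u (τ, cp)) (Icc t tp) := by
      apply h.smooth.continuousOn.comp (by fun_prop)
      intro s hs
      exact (hv s ⟨ht.1.trans hs.1, hs.2⟩).1
    exact continuousOn_const.add (h1.mul (by fun_prop))
  have := intermediate_value_Icc' ht.2 hcont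
  obtain ⟨τ, hτ, hτc⟩ := this ⟨hc1, by simpa using hc2⟩
  have hτpos : (τ, cp) ∈ posPart Ω u := hv τ ⟨ht.1.trans hτ.1, hτ.2⟩
  simp only at hτc
  rw [← hτc]
  refine ⟨char_mem h hτpos t ⟨ht.1, hτ.1⟩, ?_⟩
  rw [char_const h hτpos t ⟨ht.1, hτ.1⟩]
  exact hτpos.2

end

end Pool.Agent.Helper5MGHD
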