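import Mathlib

/-!
# Globally hyperbolic developments for the model equation of `MP_0eca13_an`

Points of `ℝ^{1+1}` are pairs `(t, x) : ℝ × ℝ`.
-/

set_option autoImplicit false

open Set Filter Topology
open scoped ContDiff

namespace Pool.Agent.Helper5MGHD

/-- `∂_t F` -/
noncomputable def dt (F : ℝ × ℝ → ℝ) (p : ℝ × ℝ) : ℝ := fderiv ℝ F p (1, 0)

/-- `∂_x F` -/
noncomputable def dx (F : ℝ × ℝ → ℝ) (p : ℝ × ℝ) : ℝ := fderiv ℝ F p (0, 1)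

/-- `Ψ = ∂_t Φ - 2 ∂_x Φ` -/
noncomputable def Psi (Φ : ℝ × ℝ → ℝ) (p : ℝ × ℝ) : ℝ := dt Φ p - 2 * dx Φ p

/-- The wave equation `-∂_t²Φ - Ψ ∂_t∂_xΦ + 2 (2 + Ψ) ∂_x²Φ = 0` at every point of `Ω`. -/
def SolvesWave (Ω : Set (ℝ × ℝ)) (Φ : ℝ × ℝ → ℝ) : Prop :=
  ∀ p ∈ Ω, -(dt (dt Φ) p) - Psi Φ p * dt (dx Φ) p + 2 * (2 + Psi Φ p) * dx (dx Φ) p = 0

/-- The matrix `g⁻¹(Ψ)` in the coordinates `(t, x)`. -/
noncomputable def gInv (ψ : ℝ) : Matrix (Fin 2) (Fin 2) ℝ :=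
  !![-1, -ψ / 2; -ψ / 2, 2 * (2 + ψ)]

/-- The acoustical metric `g(Ψ)`, the inverse of the matrix `g⁻¹(Ψ)`, evaluated on a tangent
vector `v = (v^t, v^x)`, that is `g(v, v)`. -/
noncomputable def gQuad (ψ : ℝ) (v : ℝ × ℝ) : ℝ :=
  ![v.1, v.2] ⬝ᵥ (Matrix.mulVec (gInv ψ)⁻¹ ![v.1, v.2])

/-- `γ`, defined on the open interval `I`, is an inextendible timelike `C¹` curve of the Lorentzian
manifold `(Ω, g(Ψ))`: it has no future or past endpoint in `Ω` (it does not converge to a point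
of `Ω` at either end of `I`). -/
structure IsInextendibleTimelikeCurve (Ω : Set (ℝ × ℝ)) (Φ : ℝ × ℝ → ℝ) (I : Set ℝ)
    (γ : ℝ → ℝ × ℝ) : Prop where
  isOpen : IsOpen I
  ordConnected : I.OrdConnected
  nonempty : I.Nonempty
  contDiffOn : ContDiffOn ℝ 1 γ I
  mem : ∀ s ∈ I, γ s ∈ Ω
  timelike : ∀ s ∈ I, gQuad (Psi Φ (γ s)) (deriv γ s) < 0
  no_endpoint_top : ¬ ∃ q ∈ Ω, Tendsto (fun s : I => γ s) atTop (𝓝 q)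
  no_endpoint_bot : ¬ ∃ q ∈ Ω, Tendsto (fun s : I => γ s) atBot (𝓝 q)

/-- `(Ω, Φ)` is a globally hyperbolic development of the data `(φ₀, φ₁)`. -/
structure IsGHD (φ₀ φ₁ : ℝ → ℝ) (Ω : Set (ℝ × ℝ)) (Φ : ℝ × ℝ → ℝ) : Prop where
  /-- `Ω` is open and contains `{t = 0}` -/
  isOpen : IsOpen Ω
  line_subset : ∀ x : ℝ, ((0 : ℝ), x) ∈ Ω
  /-- `Φ` is a smooth classical solution on `Ω` attaining the data -/
  smooth : ContDiffOn ℝ ∞ Φ Ω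
  wave : SolvesWave Ω Φ
  data₀ : ∀ x, Φ (0, x) = φ₀ x
  data₁ : ∀ x, dt Φ (0, x) = φ₁ x
  /-- `Ψ ≠ -4` on `Ω` -/
  nondegenerate : ∀ p ∈ Ω, Psi Φ p ≠ -4
  /-- `{t = 0}` is a Cauchy hypersurface of `(Ω, g(Ψ))`: every inextendible timelike curve meets
  it exactly once -/
  cauchy : ∀ (I : Set ℝ) (γ : ℝ → ℝ × ℝ), IsInextendibleTimelikeCurve Ω Φ I γ →
    ∃! s, s ∈ I ∧ (γ s).1 = 0

/-- `(Ω', Φ')` extends `(Ω, Φ)`. -/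
def Extends (Ω : Set (ℝ × ℝ)) (Φ : ℝ × ℝ → ℝ) (Ω' : Set (ℝ × ℝ)) (Φ' : ℝ × ℝ → ℝ) : Prop :=
  Ω ⊆ Ω' ∧ EqOn Φ' Φ Ω

/-- `(Ω, Φ)` is a maximal globally hyperbolic development of `(φ₀, φ₁)`: a GHD without proper
extension to a GHD. -/
def IsMGHD (φ₀ φ₁ : ℝ → ℝ) (Ω : Set (ℝ × ℝ)) (Φ : ℝ × ℝ → ℝ) : Prop :=
  IsGHD φ₀ φ₁ Ω Φ ∧ ∀ Ω' Φ', IsGHD φ₀ φ₁ Ω' Φ' → Extends Ω Φ Ω' Φ' → Ω' = Ω

end Pool.Agent.Helper5MGHD
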