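import Pool.Agent.Helper5_MGHD.Burgers

set_option autoImplicit false

open Set Metric Filter Topology
open scoped NNReal

namespace Pool.Agent.Helper5MGHD

/-- the part of `Ω` where `u > 0` -/
def posPart (Ω : Set (ℝ × ℝ)) (u : ℝ × ℝ → ℝ) : Set (ℝ × ℝ) := {z | z ∈ Ω ∧ 0 < u z}

section
variable {Ω : Set (ℝ × ℝ)} {u : ℝ × ℝ → ℝ}

theorem isOpen_posPart (ho : IsOpen Ω) (hs : ContDiffOn ℝ 1 u Ω) : IsOpen (posPart Ω u) := by
  rw [isOpen_iff_mem_nhds]
  rintro z ⟨hz, hz'⟩
  exact (ho.eventually_mem hz).and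
    ((hs.continuousOn.continuousAt (ho.mem_nhds hz)).eventually_const_lt hz')

/-- limits inside `Ω` of points of `posPart` are in `posPart` -/
theorem mem_posPart_of_tendsto (h : IsSol Ω u) {ι : Type*} {l : Filter ι} [l.NeBot]
    {f : ι → ℝ × ℝ} (hf : ∀ᶠ i in l, f i ∈ posPart Ω u) {q : ℝ × ℝ} (hq : q ∈ Ω)
    (hlim : Tendsto f l (𝓝 q)) : q ∈ posPart Ω u := by
  refine ⟨hq, ?_⟩
  have h1 : Tendsto (fun i => u (f i)) l (𝓝 (u q)) :=
    (h.smooth.continuousOn.continuousAt (h.isOpen.mem_nhds hq)).tendsto.comp hlim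
  have h2 : 0 ≤ u q := ge_of_tendsto h1 (hf.mono fun i hi => hi.2.le)
  exact lt_of_le_of_ne h2 (h.ne q hq).symm

/-- A future directed timelike graph starting outside the positive part of `Ω` at a time `≥ 0`
never enters the positive part. -/
theorem no_entry (h : IsSol Ω u) {ta : ℝ} (hta : 0 ≤ ta) {ξ : ℝ → ℝ}
    (hc : ContinuousOn ξ (Ici ta)) (hs : ContDiffOn ℝ 1 ξ (Ioi ta))
    (hstart : (ta, ξ ta) ∉ posPart Ω u)
    (hder : ∀ t, ta < t → (t, ξ t) ∈ posPart Ω u → 0 < deriv ξ t ∧ deriv ξ t < u (t, ξ t)) :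
    ∀ t, ta < t → (t, ξ t) ∉ posPart Ω u := by
  intro tb htb hmem
  set S : Set ℝ := {t | ta < t ∧ (t, ξ t) ∈ posPart Ω u} with hS
  have hcAt : ∀ t, ta < t → ContinuousAt ξ t := fun t ht =>
    (hc.mono Ioi_subset_Ici_self).continuousAt (Ioi_mem_nhds ht)
  have hSo : IsOpen S := by
    rw [isOpen_iff_mem_nhds]
    rintro t ⟨ht, ht'⟩
    have h1 : ContinuousAt (fun t => (t, ξ t)) t := continuousAt_id.prodMk (hcAt t ht)
    have h2 : ∀ᶠ s in 𝓝 t, s ∈ Ioi ta := Ioi_mem_nhds ht
    exact h2.and (h1.eventually_mem ((isOpen_posPart h.isOpen h.smooth).mem_nhds ht'))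
  have htbS : tb ∈ S := ⟨htb, hmem⟩
  set I := connectedComponentIn S tb with hI
  have hIo : IsOpen I := hSo.connectedComponentIn
  have hIsub : I ⊆ S := connectedComponentIn_subset S tb
  have hIpre : IsPreconnected I := isPreconnected_connectedComponentIn
  have hIord : I.OrdConnected := hIpre.ordConnected
  have htbI : tb ∈ I := mem_connectedComponentIn htbS
  have hmax : ∀ J : Set ℝ, IsPreconnected J → tb ∈ J → J ⊆ S → J ⊆ I := fun J h1 h2 h3 =>
    h1.subset_connectedComponentIn h2 h3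
  have : Nonempty I := ⟨⟨tb, htbI⟩⟩
  have key : (0 : ℝ) ∈ I := by
    refine h.cauchy I ξ hIo hIord ⟨tb, htbI⟩ (hs.mono fun t ht => (hIsub ht).1) ?_ ?_ ?_
    · intro t ht
      have h1 := (hIsub ht).2
      have h2 := hder t (hIsub ht).1 h1
      exact ⟨h1.1, mul_pos h2.1 (by linarith [h2.2])⟩
    · rintro ⟨q, hq, hlim⟩
      have hlim1 : Tendsto (fun t : I => (t : ℝ)) atTop (𝓝 q.1) :=
        (continuous_fst.tendsto q).comp hlim
      have hlim2 : Tendsto (fun t : I => ξ t) atTop (𝓝 q.2) :=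
        (continuous_snd.tendsto q).comp hlim
      -- `q.1` is an upper bound of `I`
      have hub : ∀ t ∈ I, t ≤ q.1 := by
        intro t ht
        apply ge_of_tendsto hlim1
        filter_upwards [eventually_ge_atTop (⟨t, ht⟩ : I)] with s hs'
        exact hs'
      have hqta : ta < q.1 := lt_of_lt_of_le htb (hub tb htbI)
      have hq2 : q.2 = ξ q.1 :=
        tendsto_nhds_unique hlim2 ((hcAt q.1 hqta).tendsto.comp hlim1)
      have hqS : q.1 ∈ S := by
        refine ⟨hqta, ?_⟩
        rw [← hq2]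
        exact mem_posPart_of_tendsto h (Eventually.of_forall fun t : I => (hIsub t.2).2) hq hlim
      have hsub : Icc tb q.1 ⊆ S := by
        intro t ht
        rcases eq_or_lt_of_le ht.2 with h1 | h1
        · rw [h1]; exact hqS
        · -- there is a point of `I` beyond `t`
          obtain ⟨s, hs'⟩ := (hlim1.eventually_const_lt h1).exists
          exact hIsub (hIord.out htbI s.2 ⟨ht.1, hs'.le⟩)
      have hqI : q.1 ∈ I := hmax _ isPreconnected_Icc (left_mem_Icc.2 (hub tb htbI)) hsub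
        (right_mem_Icc.2 (hub tb htbI))
      obtain ⟨e, he, he'⟩ := Metric.isOpen_iff.1 hIo q.1 hqI
      have h3 : q.1 + e / 2 ∈ I := he' (by
        rw [mem_ball, Real.dist_eq]; rw [add_sub_cancel_left, abs_of_pos (by linarith)]; linarith)
      linarith [hub _ h3]
    · rintro ⟨q, hq, hlim⟩
      have hlim1 : Tendsto (fun t : I => (t : ℝ)) atBot (𝓝 q.1) :=
        (continuous_fst.tendsto q).comp hlim
      have hlim2 : Tendsto (fun t : I => ξ t) atBot (𝓝 q.2) :=
        (continuous_snd.tendsto q).comp hlim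
      have hlb : ∀ t ∈ I, q.1 ≤ t := by
        intro t ht
        apply le_of_tendsto hlim1
        filter_upwards [eventually_le_atBot (⟨t, ht⟩ : I)] with s hs'
        exact hs'
      have hqta : ta ≤ q.1 := by
        apply ge_of_tendsto hlim1
        exact Eventually.of_forall fun t : I => (hIsub t.2).1.le
      have hq2 : q.2 = ξ q.1 := by
        have h1 : Tendsto ξ (𝓝[Ici ta] q.1) (𝓝 (ξ q.1)) := hc q.1 hqta
        have h2 : Tendsto (fun t : I => (t : ℝ)) atBot (𝓝[Ici ta] q.1) :=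
          tendsto_nhdsWithin_iff.2 ⟨hlim1, Eventually.of_forall fun t : I => (hIsub t.2).1.le⟩
        exact tendsto_nhds_unique hlim2 (h1.comp h2)
      have hqpos : (q.1, ξ q.1) ∈ posPart Ω u := by
        rw [← hq2]
        exact mem_posPart_of_tendsto h (Eventually.of_forall fun t : I => (hIsub t.2).2) hq hlim
      rcases eq_or_lt_of_le hqta with h1 | h1
      · rw [← h1] at hqpos
        exact hstart hqpos
      · have hqS : q.1 ∈ S := ⟨h1, hqpos⟩
        have hsub : Icc q.1 tb ⊆ S := by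
          intro t ht
          rcases eq_or_lt_of_le ht.1 with h2 | h2
          · rw [← h2]; exact hqS
          · obtain ⟨s, hs'⟩ := (hlim1.eventually_lt_const h2).exists
            exact hIsub (hIord.out s.2 htbI ⟨hs'.le, ht.2⟩)
        have hqI : q.1 ∈ I := hmax _ isPreconnected_Icc (right_mem_Icc.2 (hlb tb htbI)) hsub
          (left_mem_Icc.2 (hlb tb htbI))
        obtain ⟨e, he, he'⟩ := Metric.isOpen_iff.1 hIo q.1 hqI
        have h3 : q.1 - e / 2 ∈ I := he' (by
          rw [mem_ball, Real.dist_eq]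
          rw [sub_sub_cancel_left, abs_neg, abs_of_pos (by linarith)]; linarith)
        linarith [hlb _ h3]
  exact absurd (hIsub key).1 (not_lt.2 hta)

/-- The ingoing characteristic (vertical segment) below a point of the positive part lies in
`Ω`. -/
theorem vertical_mem (h : IsSol Ω u) {tp cp : ℝ} (hp : (tp, cp) ∈ posPart Ω u) :
    ∀ t ∈ Icc 0 tp, (t, cp) ∈ Ω := by
  intro tq htq
  by_contra hq
  have hlt : tq < tp := by
    rcases eq_or_lt_of_le htq.2 with h1 | h1
    · rw [h1] at hq; exact absurd hp.1 hq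
    · exact h1
  have hUo := isOpen_posPart h.isOpen h.smooth
  obtain ⟨r, hr, hball⟩ := Metric.isOpen_iff.1 hUo _ hp
  -- speed bound
  set a := min (u (tp, cp) / 2) (r / (2 * (tp - tq))) with ha
  have ha0 : 0 < a := lt_min (by linarith [hp.2]) (div_pos hr (by linarith))
  have ha1 : a < u (tp, cp) := lt_of_le_of_lt (min_le_left _ _) (by linarith [hp.2])
  have ha2 : a * (tp - tq) < r := by
    have h1 : a ≤ r / (2 * (tp - tq)) := min_le_right _ _
    have h2 : 0 < tp - tq := by linarith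
    calc a * (tp - tq) ≤ r / (2 * (tp - tq)) * (tp - tq) := by gcongr
      _ = r / 2 := by field_simp
      _ < r := by linarith
  obtain ⟨K, w, hwlip, hw0, hwpos, hwle, -⟩ := lip_minorant (posPart Ω u) hUo u
    (h.smooth.continuousOn.mono fun z hz => hz.1) (fun z hz => hz.2) (tp, cp) hp a ha0 ha1
  obtain ⟨ξ, hξ1, hξ2⟩ := ode_global (fun t x => w (t, x)) K ⟨a, ha0.le⟩
    (fun x => hwlip.continuous.comp (by fun_prop))
    (fun t => by
      have h1 := hwlip.comp (LipschitzWith.prodMk_left t (β := ℝ))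
      rw [mul_one] at h1
      exact h1)
    (fun t x => by
      rw [Real.norm_eq_abs, abs_of_nonneg (hwle _).1]
      exact (hwle _).2) tq cp
  have hξc : Continuous ξ := continuous_iff_continuousAt.2 fun t => (hξ2 t).continuousAt
  have hderiv : deriv ξ = fun t => w (t, ξ t) := funext fun t => (hξ2 t).deriv
  have hξs : ContDiff ℝ 1 ξ := by
    rw [contDiff_one_iff_deriv]
    refine ⟨fun t => (hξ2 t).differentiableAt, ?_⟩
    rw [hderiv]
    exact hwlip.continuous.comp (by fun_prop)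
  have hno := no_entry h htq.1 hξc.continuousOn hξs.contDiffOn
    (by rw [hξ1]; exact fun hmem => hq hmem.1)
    (fun t _ ht => by
      rw [hderiv]
      exact hwpos _ ht)
  refine hno tp hlt (hball ?_)
  have hmv : ‖ξ tp - ξ tq‖ ≤ a * ‖tp - tq‖ :=
    Convex.norm_image_sub_le_of_norm_deriv_le (s := univ) (fun t _ => (hξ2 t).differentiableAt)
      (fun t _ => by
        rw [hderiv, Real.norm_eq_abs, abs_of_nonneg (hwle _).1]
        exact (hwle _).2) convex_univ trivial trivial
  rw [hξ1, Real.norm_eq_abs, Real.norm_eq_abs, abs_of_pos (by linarith : 0 < tp - tq)] at hmv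
  rw [mem_ball, Prod.dist_eq]
  simp only [dist_self, Real.dist_eq]
  rw [max_lt_iff]
  exact ⟨hr, lt_of_le_of_lt hmv ha2⟩

theorem vertical_pos (h : IsSol Ω u) {tp cp : ℝ} (hp : (tp, cp) ∈ posPart Ω u) :
    ∀ t ∈ Icc 0 tp, (t, cp) ∈ posPart Ω u := by
  intro t ht
  have hv := vertical_mem h hp
  refine ⟨hv t ht, ?_⟩
  by_contra hneg
  push Not at hneg
  have hcont : ContinuousOn (fun s => u (s, cp)) (Icc t tp) := by
    apply h.smooth.continuousOn.comp (by fun_prop)
    intro s hs
    exact hv s ⟨ht.1.trans hs.1, hs.2⟩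
  have := intermediate_value_Icc ht.2 hcont
  obtain ⟨s, hs, hs0⟩ := this ⟨hneg, hp.2.le⟩
  exact h.ne _ (hv s ⟨ht.1.trans hs.1, hs.2⟩) hs0

end

end Pool.Agent.Helper5MGHD
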