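import Mathlib

set_option autoImplicit false
set_option linter.unusedSectionVars false

open Set Metric Filter Topology
open scoped NNReal ContDiff

namespace Pool.Agent.Helper5MGHD

/-- Non-focusing condition on the base between the foot `ξ` and `c`. -/
def Good (w : ℝ → ℝ) (ξ c : ℝ) : Prop :=
  ∀ x ∈ uIcc ξ c, 0 < 1 + deriv w x * ((c - x) / w x)

/-- The explicit maximal domain in coordinates `(t, c)`, `c = x + 2 t`. -/
def OmC (w : ℝ → ℝ) : Set (ℝ × ℝ) := {z | ∃ ξ, ξ + z.1 * w ξ = z.2 ∧ Good w ξ z.2}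

open Classical in
/-- The foot of the characteristic through `z`. -/
noncomputable def ft (w : ℝ → ℝ) (z : ℝ × ℝ) : ℝ :=
  if h : ∃ ξ, ξ + z.1 * w ξ = z.2 ∧ Good w ξ z.2 then h.choose else 0

theorem ft_spec {w : ℝ → ℝ} {z : ℝ × ℝ} (h : z ∈ OmC w) :
    ft w z + z.1 * w (ft w z) = z.2 ∧ Good w (ft w z) z.2 := by
  have h' : ∃ ξ, ξ + z.1 * w ξ = z.2 ∧ Good w ξ z.2 := h
  unfold ft
  rw [dif_pos h']
  exact h'.choose_spec

section
variable {w : ℝ → ℝ} (hw : ContDiff ℝ ∞ w) (hw0 : ∀ x, w x ≠ 0)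
include hw hw0

theorem w_hasDerivAt (x : ℝ) : HasDerivAt w (deriv w x) x :=
  (hw.differentiable (by simp) x).hasDerivAt

theorem foot_unique_lt {t c ξ₁ ξ₂ : ℝ} (h1 : ξ₁ + t * w ξ₁ = c) (g1 : Good w ξ₁ c)
    (h2 : ξ₂ + t * w ξ₂ = c) (g2 : Good w ξ₂ c) (hlt : ξ₁ < ξ₂) : False := by
  have hd : ∀ x, HasDerivAt (fun x => (c - x) / w x)
      ((-1 * w x - (c - x) * deriv w x) / w x ^ 2) x := fun x =>
    ((hasDerivAt_id x).const_sub c).div (w_hasDerivAt hw hw0 x) (hw0 x)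
  have e1 : (c - ξ₁) / w ξ₁ = t := by
    rw [div_eq_iff (hw0 _)]; linarith
  have e2 : (c - ξ₂) / w ξ₂ = t := by
    rw [div_eq_iff (hw0 _)]; linarith
  obtain ⟨x, hx, hx0⟩ := exists_hasDerivAt_eq_zero hlt
    (f := fun x => (c - x) / w x) (fun x _ => (hd x).continuousAt.continuousWithinAt)
    (e1.trans e2.symm) (fun x _ => hd x)
  have hwx := hw0 x
  have h3 : -1 * w x - (c - x) * deriv w x = 0 := by
    rcases div_eq_zero_iff.1 hx0 with h | h
    · exact h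
    · exact absurd h (pow_ne_zero 2 hwx)
  have h4 : 1 + deriv w x * ((c - x) / w x) = 0 := by
    field_simp
    linarith
  have h5 : x ∈ uIcc ξ₁ c ∨ x ∈ uIcc ξ₂ c := by
    rcases le_total x c with h | h
    · left; rw [mem_uIcc]; left; exact ⟨hx.1.le, h⟩
    · right; rw [mem_uIcc]; right; exact ⟨h, hx.2.le⟩
  rcases h5 with h5 | h5
  · have := g1 x h5; linarith
  · have := g2 x h5; linarith

theorem foot_unique {t c ξ₁ ξ₂ : ℝ} (h1 : ξ₁ + t * w ξ₁ = c) (g1 : Good w ξ₁ c)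
    (h2 : ξ₂ + t * w ξ₂ = c) (g2 : Good w ξ₂ c) : ξ₁ = ξ₂ := by
  rcases lt_trichotomy ξ₁ ξ₂ with h | h | h
  · exact (foot_unique_lt hw hw0 h1 g1 h2 g2 h).elim
  · exact h
  · exact (foot_unique_lt hw hw0 h2 g2 h1 g1 h).elim

theorem ft_eq {t c ξ : ℝ} (h1 : ξ + t * w ξ = c) (g1 : Good w ξ c) : ft w (t, c) = ξ := by
  have hm : (t, c) ∈ OmC w := ⟨ξ, h1, g1⟩
  have := ft_spec hm
  exact foot_unique hw hw0 this.1 this.2 h1 g1

theorem good_self (c : ℝ) : Good w c c := by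
  intro x hx
  rw [uIcc_self, mem_singleton_iff] at hx
  subst hx
  simp

theorem mem_OmC_zero (c : ℝ) : ((0 : ℝ), c) ∈ OmC w := ⟨c, by simp, good_self hw hw0 c⟩

theorem ft_zero (c : ℝ) : ft w (0, c) = c :=
  ft_eq hw hw0 (by simp) (good_self hw hw0 c)

theorem jac_pos {z : ℝ × ℝ} (hz : z ∈ OmC w) : 0 < 1 + z.1 * deriv w (ft w z) := by
  obtain ⟨h1, h2⟩ := ft_spec hz
  have h3 := h2 (ft w z) left_mem_uIcc
  have h4 : (z.2 - ft w z) / w (ft w z) = z.1 := by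
    rw [div_eq_iff (hw0 _)]; linarith
  rw [h4] at h3
  linarith

/-- The condition `Good` is open. -/
theorem eventually_good {ξ₀ c₀ : ℝ} (h : Good w ξ₀ c₀) :
    ∀ᶠ q : ℝ × ℝ in 𝓝 (ξ₀, c₀), Good w q.1 q.2 := by
  have hdw : Continuous (deriv w) := hw.continuous_deriv (by simp)
  have h1 : ∀ᶠ q : ℝ × ℝ in 𝓝 (ξ₀, c₀), ∀ θ ∈ Icc (0 : ℝ) 1,
      0 < 1 + deriv w (q.1 + θ * (q.2 - q.1)) *
        ((q.2 - (q.1 + θ * (q.2 - q.1))) / w (q.1 + θ * (q.2 - q.1))) := by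
    apply isCompact_Icc.eventually_forall_of_forall_eventually
    intro θ hθ
    have hc : Continuous fun r : (ℝ × ℝ) × ℝ =>
        1 + deriv w (r.1.1 + r.2 * (r.1.2 - r.1.1)) *
        ((r.1.2 - (r.1.1 + r.2 * (r.1.2 - r.1.1))) / w (r.1.1 + r.2 * (r.1.2 - r.1.1))) := by
      have hcw : Continuous fun r : (ℝ × ℝ) × ℝ => w (r.1.1 + r.2 * (r.1.2 - r.1.1)) :=
        hw.continuous.comp (by fun_prop)
      have hcdw : Continuous fun r : (ℝ × ℝ) × ℝ => deriv w (r.1.1 + r.2 * (r.1.2 - r.1.1)) :=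
        hdw.comp (by fun_prop)
      have hcn : Continuous fun r : (ℝ × ℝ) × ℝ =>
        (r.1.2 - (r.1.1 + r.2 * (r.1.2 - r.1.1))) := by fun_prop
      exact continuous_const.add (hcdw.mul (hcn.div hcw fun r => hw0 _))
    have hpos : 0 < 1 + deriv w (ξ₀ + θ * (c₀ - ξ₀)) *
        ((c₀ - (ξ₀ + θ * (c₀ - ξ₀))) / w (ξ₀ + θ * (c₀ - ξ₀))) := by
      apply h
      rw [mem_uIcc]
      rcases le_total ξ₀ c₀ with h2 | h2
      · left
        constructor
        · nlinarith [hθ.1, hθ.2]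
        · nlinarith [hθ.1, hθ.2]
      · right
        constructor
        · nlinarith [hθ.1, hθ.2]
        · nlinarith [hθ.1, hθ.2]
    exact (hc.continuousAt (x := ((ξ₀, c₀), θ))).eventually_const_lt hpos
  filter_upwards [h1] with q hq x hx
  -- parametrize
  rw [← segment_eq_uIcc, segment_eq_image'] at hx
  obtain ⟨θ, hθ, rfl⟩ := hx
  have := hq θ hθ
  simpa using this

/-- The foot map is locally given by the inverse function theorem. -/
theorem exists_local_foot {z : ℝ × ℝ} (hz : z ∈ OmC w) :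
    ∃ f : ℝ × ℝ → ℝ, ContDiffAt ℝ ∞ f z ∧
      ∀ᶠ z' in 𝓝 z, z' ∈ OmC w ∧ ft w z' = f z' := by
  obtain ⟨h1, h2⟩ := ft_spec hz
  set ξ := ft w z with hξ
  have hjac := jac_pos hw hw0 hz
  rw [← hξ] at hjac
  set m := w ξ with hm
  set k := 1 + z.1 * deriv w ξ with hk
  let G : ℝ × ℝ → ℝ × ℝ := fun q => (q.1, q.2 + q.1 * w q.2)
  have hGs : ContDiff ℝ ∞ G :=
    contDiff_fst.prodMk (contDiff_snd.add (contDiff_fst.mul (hw.comp contDiff_snd)))
  let A : ℝ × ℝ →L[ℝ] ℝ × ℝ := (ContinuousLinearMap.fst ℝ ℝ ℝ).prod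
    (m • ContinuousLinearMap.fst ℝ ℝ ℝ + k • ContinuousLinearMap.snd ℝ ℝ ℝ)
  let A' : ℝ × ℝ →L[ℝ] ℝ × ℝ := (ContinuousLinearMap.fst ℝ ℝ ℝ).prod
    ((-m / k) • ContinuousLinearMap.fst ℝ ℝ ℝ + (1 / k) • ContinuousLinearMap.snd ℝ ℝ ℝ)
  have hAA' : Function.LeftInverse A' A := by
    intro q
    ext
    · simp [A, A']
    · simp [A, A']
      field_simp
      ring
  have hA'A : Function.RightInverse A' A := by
    intro q
    ext
    · simp [A, A']
    · simp [A, A']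
      field_simp
      ring
  let e : (ℝ × ℝ) ≃L[ℝ] (ℝ × ℝ) := ContinuousLinearEquiv.equivOfInverse A A' hAA' hA'A
  have hGd : HasFDerivAt G (e : ℝ × ℝ →L[ℝ] ℝ × ℝ) (z.1, ξ) := by
    have hfst : HasFDerivAt (fun q : ℝ × ℝ => q.1) (ContinuousLinearMap.fst ℝ ℝ ℝ) (z.1, ξ) :=
      hasFDerivAt_fst
    have hsnd : HasFDerivAt (fun q : ℝ × ℝ => q.2) (ContinuousLinearMap.snd ℝ ℝ ℝ) (z.1, ξ) :=
      hasFDerivAt_snd
    have hwd : HasFDerivAt (fun q : ℝ × ℝ => w q.2) (deriv w ξ • ContinuousLinearMap.snd ℝ ℝ ℝ)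
        (z.1, ξ) := (w_hasDerivAt hw hw0 ξ).comp_hasFDerivAt (z.1, ξ) hsnd
    have h3 : HasFDerivAt G ((ContinuousLinearMap.fst ℝ ℝ ℝ).prod (ContinuousLinearMap.snd ℝ ℝ ℝ +
        (z.1 • deriv w ξ • ContinuousLinearMap.snd ℝ ℝ ℝ + w ξ • ContinuousLinearMap.fst ℝ ℝ ℝ)))
        (z.1, ξ) := hfst.prodMk (hsnd.add (hfst.mul hwd))
    have h4 : (e : ℝ × ℝ →L[ℝ] ℝ × ℝ) = (ContinuousLinearMap.fst ℝ ℝ ℝ).prod
        (ContinuousLinearMap.snd ℝ ℝ ℝ +
        (z.1 • deriv w ξ • ContinuousLinearMap.snd ℝ ℝ ℝ + w ξ • ContinuousLinearMap.fst ℝ ℝ ℝ)) := by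
      have h5 : (e : ℝ × ℝ →L[ℝ] ℝ × ℝ) = A := rfl
      rw [h5]
      refine ContinuousLinearMap.ext fun v => Prod.ext ?_ ?_
      · simp [A]
      · simp [A, hk, hm]
        ring
    rw [h4]
    exact h3
  have hGat : ContDiffAt ℝ ∞ G (z.1, ξ) := hGs.contDiffAt
  set L := hGat.localInverse hGd (by simp) with hL
  have hGz : G (z.1, ξ) = z := by
    simp only [G]
    ext
    · rfl
    · exact h1
  have hLs : ContDiffAt ℝ ∞ L z := by
    have := hGat.to_localInverse hGd (by simp)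
    rwa [hGz] at this
  have hLz : L z = (z.1, ξ) := by
    have := hGat.localInverse_apply_image hGd (by simp)
    rwa [hGz] at this
  have hright : ∀ᶠ z' in 𝓝 z, G (L z') = z' := by
    have := (hGat.hasStrictFDerivAt' hGd (by simp)).eventually_right_inverse
    rw [hGz] at this
    exact this
  refine ⟨fun z' => (L z').2, contDiffAt_snd.comp z hLs, ?_⟩
  have hcont : ContinuousAt (fun z' : ℝ × ℝ => ((L z').2, z'.2)) z := by
    have : ContinuousAt (fun z' => (L z').2) z := continuousAt_snd.comp hLs.continuousAt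
    exact this.prodMk continuousAt_snd
  have hgood : ∀ᶠ z' in 𝓝 z, Good w (L z').2 z'.2 := by
    have h3 : Tendsto (fun z' : ℝ × ℝ => ((L z').2, z'.2)) (𝓝 z) (𝓝 (ξ, z.2)) := by
      have := hcont.tendsto
      rwa [hLz] at this
    exact h3.eventually (eventually_good hw hw0 h2)
  filter_upwards [hright, hgood] with z' hz1 hz2
  have h5 : (L z').1 = z'.1 := by
    have h7 := congrArg Prod.fst hz1
    exact h7
  have h6 : (L z').2 + z'.1 * w (L z').2 = z'.2 := by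
    have h7 : (L z').2 + (L z').1 * w (L z').2 = z'.2 := congrArg Prod.snd hz1
    rwa [h5] at h7
  exact ⟨⟨(L z').2, h6, hz2⟩, ft_eq hw hw0 h6 hz2⟩

theorem isOpen_OmC : IsOpen (OmC w) := by
  rw [isOpen_iff_mem_nhds]
  intro z hz
  obtain ⟨f, -, hf⟩ := exists_local_foot hw hw0 hz
  exact hf.mono fun z' hz' => hz'.1

theorem contDiffAt_ft {z : ℝ × ℝ} (hz : z ∈ OmC w) : ContDiffAt ℝ ∞ (ft w) z := by
  obtain ⟨f, hf1, hf2⟩ := exists_local_foot hw hw0 hz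
  exact hf1.congr_of_eventuallyEq (hf2.mono fun z' hz' => hz'.2)

/-- derivative of the foot map -/
theorem fderiv_ft {z : ℝ × ℝ} (hz : z ∈ OmC w) (a b : ℝ) :
    fderiv ℝ (ft w) z (a, b) * (1 + z.1 * deriv w (ft w z)) + a * w (ft w z) = b := by
  have hd : HasFDerivAt (ft w) (fderiv ℝ (ft w) z) z :=
    ((contDiffAt_ft hw hw0 hz).differentiableAt (by simp)).hasFDerivAt
  have hfst : HasFDerivAt (fun q : ℝ × ℝ => q.1) (ContinuousLinearMap.fst ℝ ℝ ℝ) z :=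
    hasFDerivAt_fst
  have hwd : HasFDerivAt (fun q : ℝ × ℝ => w (ft w q))
      (deriv w (ft w z) • fderiv ℝ (ft w) z) z :=
    (w_hasDerivAt hw hw0 _).comp_hasFDerivAt z hd
  have h1 := hd.add (hfst.mul hwd)
  have h2 : (fun q : ℝ × ℝ => ft w q + q.1 * w (ft w q)) =ᶠ[𝓝 z] fun q => q.2 := by
    filter_upwards [(isOpen_OmC hw hw0).mem_nhds hz] with q hq using (ft_spec hq).1
  have h3 : HasFDerivAt (fun q : ℝ × ℝ => ft w q + q.1 * w (ft w q))
      (ContinuousLinearMap.snd ℝ ℝ ℝ) z := hasFDerivAt_snd.congr_of_eventuallyEq h2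
  have h4 := congrArg (fun A : ℝ × ℝ →L[ℝ] ℝ => A (a, b)) (h1.unique h3)
  simp at h4
  linarith

end

end Pool.Agent.Helper5MGHD
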