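import Pool.Agent.Helper5_MGHD.Char

set_option autoImplicit false

open Set Metric Filter Topology
open scoped NNReal

namespace Pool.Agent.Helper5MGHD

section
variable {Ω : Set (ℝ × ℝ)} {u : ℝ × ℝ → ℝ}

/-- The foot on `{t = 0}` of the outgoing characteristic through a point of the positive part,
and the non-focusing condition on the whole base of the past triangle. -/
theorem good_foot (h : IsSol Ω u) {tp cp : ℝ} (hp : (tp, cp) ∈ posPart Ω u) (htp : 0 ≤ tp) :
    u (0, cp - u (tp, cp) * tp) = u (tp, cp) ∧
      ∀ x ∈ Icc (cp - u (tp, cp) * tp) cp,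
        0 < u (0, x) ∧ 0 < 1 + fderiv ℝ u (0, x) (0, 1) * ((cp - x) / u (0, x)) := by
  set l := u (tp, cp) with hl
  have hlpos : 0 < l := hp.2
  have ho := h.isOpen
  have hs := h.smooth
  have hfoot : u (0, cp - l * tp) = l := by
    have := char_const h hp 0 ⟨le_rfl, htp⟩
    rw [← hl] at this
    rw [show cp - l * tp = cp + l * (0 - tp) by ring]
    exact this
  refine ⟨hfoot, ?_⟩
  intro x hx
  have hxpos : (0, x) ∈ posPart Ω u := by
    apply triangle h hp ⟨le_rfl, htp⟩ _ hx.2
    rw [← hl]
    linarith [hx.1]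
  set μ := u (0, x) with hμ
  have hμpos : 0 < μ := hxpos.2
  refine ⟨hμpos, ?_⟩
  set T := (cp - x) / μ with hT
  have hT0 : 0 ≤ T := div_nonneg (by linarith [hx.2]) hμpos.le
  have hTμ : μ * T = cp - x := by rw [hT]; field_simp
  -- the characteristic from (0,x) stays to the right of the one through p
  have hf : ∀ s ∈ Icc 0 T, cp - l * tp + l * s ≤ x + μ * s := by
    rcases eq_or_lt_of_le hx.1 with h1 | h1
    · intro s _
      have : μ = l := by rw [hμ, ← h1, hfoot]
      rw [this, ← h1]
    · by_contra hneg
      push Not at hneg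
      obtain ⟨s1, hs1, hs1'⟩ := hneg
      have hdpos : 0 < l - μ := by
        by_contra hle
        push Not at hle
        have : (l - μ) * s1 ≤ 0 := mul_nonpos_of_nonpos_of_nonneg hle hs1.1
        nlinarith
      set s2 := (x - (cp - l * tp)) / (l - μ) with hs2
      have hs2pos : 0 < s2 := div_pos (by linarith) hdpos
      have hs2eq : (l - μ) * s2 = x - (cp - l * tp) := by rw [hs2]; field_simp
      have hs21 : s2 ≤ s1 := by
        rw [hs2, div_le_iff₀ hdpos]
        nlinarith
      have hs2T : s2 ≤ T := hs21.trans hs1.2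
      have hle : ∀ s ∈ Icc 0 s2, x + μ * s ≤ cp := by
        intro s hs'
        have : μ * s ≤ μ * T := by
          apply mul_le_mul_of_nonneg_left (hs'.2.trans hs2T) hμpos.le
        linarith
      have hge : ∀ s ∈ Icc 0 s2, cp - l * tp + l * s ≤ x + μ * s := by
        intro s hs'
        have : (l - μ) * s ≤ (l - μ) * s2 := mul_le_mul_of_nonneg_left hs'.2 hdpos.le
        linarith
      have hs2tp : s2 ≤ tp := by
        have h2 := hle s2 ⟨hs2pos.le, le_rfl⟩
        have h3 := hge s2 ⟨hs2pos.le, le_rfl⟩
        have h4 : l * s2 ≤ l * tp := by linarith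
        exact le_of_mul_le_mul_left h4 hlpos
      have hmem : ∀ s ∈ Icc 0 s2, (s, x + μ * s) ∈ Ω := by
        intro s hs'
        refine (triangle h hp ⟨hs'.1, hs'.2.trans hs2tp⟩ ?_ (hle s hs')).1
        rw [← hl]
        have := hge s hs'
        linarith
      have hu1 : u (s2, x + μ * s2) = μ := by
        have := const_along ho hs h.burgers (t0 := 0) (c0 := x) (t1 := s2) (by
          intro s hs'
          rw [uIcc_of_le hs2pos.le] at hs'
          simpa using hmem s hs') s2 right_mem_uIcc
        simpa using this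
      have hu2 : u (s2, x + μ * s2) = l := by
        have := char_const h hp s2 ⟨hs2pos.le, hs2tp⟩
        rw [← hl] at this
        rw [← this]
        congr 2
        linarith
      linarith
  have hTtp : T ≤ tp := by
    by_contra hgt
    push Not at hgt
    have h1 := hf tp ⟨htp, hgt.le⟩
    have h2 : μ * tp < μ * T := mul_lt_mul_of_pos_left hgt hμpos
    linarith
  have hseg : ∀ s ∈ uIcc 0 T, (s, x + u (0, x) * (s - 0)) ∈ Ω := by
    intro s hs'
    rw [uIcc_of_le hT0] at hs'
    rw [sub_zero, ← hμ]
    refine (triangle h hp ⟨hs'.1, hs'.2.trans hTtp⟩ ?_ ?_).1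
    · rw [← hl]
      have := hf s hs'
      linarith
    · have : μ * s ≤ μ * T := mul_le_mul_of_nonneg_left hs'.2 hμpos.le
      linarith
  have := jacobian_pos ho hs h.burgers hxpos.1 hseg
  rw [sub_zero] at this
  exact this

end

end Pool.Agent.Helper5MGHD
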