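import Pool.Agent.Helper5_MGHD.Cauchy

set_option autoImplicit false
set_option linter.unusedSectionVars false

open Set Metric Filter Topology
open scoped NNReal ContDiff

namespace Pool.Agent.Helper5MGHD

/-- `4 + Ψ` on the initial line -/
noncomputable def wData (φ₀ φ₁ : ℝ → ℝ) (x : ℝ) : ℝ := 4 + φ₁ x - 2 * deriv φ₀ x

section
variable {φ₀ φ₁ : ℝ → ℝ} (hφ₀ : ContDiff ℝ ∞ φ₀) (hφ₁ : ContDiff ℝ ∞ φ₁)
  (hne : ∀ x, φ₁ x - 2 * deriv φ₀ x ≠ -4)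
include hφ₀ hφ₁ hne

theorem contDiff_wData : ContDiff ℝ ∞ (wData φ₀ φ₁) := by
  have h1 : ContDiff ℝ ∞ (deriv φ₀) := (contDiff_infty_iff_deriv.1 hφ₀).2
  exact (contDiff_const.add hφ₁).sub (contDiff_const.mul h1)

theorem wData_ne (x : ℝ) : wData φ₀ φ₁ x ≠ 0 := by
  intro h
  unfold wData at h
  exact hne x (by linarith)

/-- The explicit development is a GHD. -/
theorem isGHD_explicit : IsGHD φ₀ φ₁ (OmX (wData φ₀ φ₁)) (PhiX φ₀ (wData φ₀ φ₁)) := by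
  have hw := contDiff_wData hφ₀ hφ₁ hne
  have hw0 := wData_ne hφ₀ hφ₁ hne
  refine ⟨isOpen_OmX hw hw0, mem_OmX_zero hw hw0, contDiffOn_PhiX hw hw0 hφ₀,
    wave_PhiX hw hw0 hφ₀, PhiX_zero hw hw0, ?_, ?_, cauchy_explicit hw hw0 hφ₀⟩
  · intro x
    rw [dt_PhiX_zero hw hw0 hφ₀]
    unfold wData; ring
  · intro p hp h
    rw [Psi_PhiX hw hw0 hφ₀ hp] at h
    exact hw0 _ (by linarith : wData φ₀ φ₁ (ft (wData φ₀ φ₁) (toC p)) = 0)

theorem Psi_data {Ω : Set (ℝ × ℝ)} {Φ : ℝ × ℝ → ℝ} (h : IsGHD φ₀ φ₁ Ω Φ) (x : ℝ) :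
    4 + Psi Φ (0, x) = wData φ₀ φ₁ x := by
  have hd : HasFDerivAt Φ (fderiv ℝ Φ (0, x)) (0, x) :=
    ((h.smooth.contDiffAt (h.isOpen.mem_nhds (h.line_subset x))).differentiableAt
      (by simp)).hasFDerivAt
  have h1 : HasDerivAt (fun y : ℝ => (((0 : ℝ), y) : ℝ × ℝ)) (0, 1) x :=
    (hasDerivAt_const x (0 : ℝ)).prodMk (hasDerivAt_id x)
  have h2 := hd.comp_hasDerivAt x h1
  have h3 : (Φ ∘ fun y : ℝ => (((0 : ℝ), y) : ℝ × ℝ)) = φ₀ := by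
    funext y
    exact h.data₀ y
  rw [h3] at h2
  have h4 : dx Φ (0, x) = deriv φ₀ x := h2.deriv.symm
  unfold Psi wData
  rw [h.data₁, h4]
  ring

/-- signs adapted to a point of a GHD -/
theorem exists_signs {Ω : Set (ℝ × ℝ)} {Φ : ℝ × ℝ → ℝ} (h : IsGHD φ₀ φ₁ Ω Φ) {p : ℝ × ℝ}
    (hp : p ∈ Ω) : ∃ κ τ : ℝ, κ * κ = 1 ∧ τ * τ = 1 ∧ 0 ≤ τ * p.1 ∧ 0 < κ * (4 + Psi Φ p) := by
  obtain ⟨τ, hτ, hτp⟩ : ∃ τ : ℝ, τ * τ = 1 ∧ 0 ≤ τ * p.1 := by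
    rcases le_total 0 p.1 with h1 | h1
    · exact ⟨1, by norm_num, by linarith⟩
    · exact ⟨-1, by norm_num, by linarith⟩
  obtain ⟨κ, hκ, hκp⟩ : ∃ κ : ℝ, κ * κ = 1 ∧ 0 < κ * (4 + Psi Φ p) := by
    have h0 : 4 + Psi Φ p ≠ 0 := fun h2 => h.nondegenerate p hp (by linarith)
    rcases lt_or_gt_of_ne h0 with h1 | h1
    · exact ⟨-1, by norm_num, by linarith⟩
    · exact ⟨1, by norm_num, by linarith⟩
  exact ⟨κ, τ, hκ, hτ, hτp, hκp⟩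

theorem sign_facts {κ τ : ℝ} (hκ : κ * κ = 1) (hτ : τ * τ = 1) :
    (κ * τ) * (κ * τ) = 1 ∧ (κ * τ) * τ = κ := by
  constructor
  · have : κ * τ * (κ * τ) = (κ * κ) * (τ * τ) := by ring
    rw [this, hκ, hτ, one_mul]
  · rw [mul_assoc, hτ, mul_one]

/-- ingoing characteristics of points of a GHD reach the initial line inside the GHD -/
theorem ghd_vertical {Ω : Set (ℝ × ℝ)} {Φ : ℝ × ℝ → ℝ} (h : IsGHD φ₀ φ₁ Ω Φ) {p : ℝ × ℝ}
    (hp : p ∈ Ω) : ∀ s ∈ uIcc 0 p.1, (s, p.2 + 2 * p.1 - 2 * s) ∈ Ω := by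
  obtain ⟨κ, τ, hκ, hτ, hτp, hκp⟩ := exists_signs hφ₀ hφ₁ hne h hp
  obtain ⟨hσ2, hστ⟩ := sign_facts hφ₀ hφ₁ hne hκ hτ
  set σ := κ * τ with hσ
  have hsol := isSol_of_isGHD h hτ hσ2
  have hz : (chgInv τ σ p) ∈ posPart (chg τ σ ⁻¹' Ω) (uVar Φ τ σ) := by
    constructor
    · rw [mem_preimage, chg_chgInv hτ hσ2]; exact hp
    · unfold uVar
      rw [chg_chgInv hτ hσ2, hστ]; exact hκp
  have hv := vertical_mem (tp := (chgInv τ σ p).1) (cp := (chgInv τ σ p).2) hsol hz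
  intro s hs
  have hr : τ * s ∈ Icc 0 (chgInv τ σ p).1 := by
    have h1 : τ * s ∈ (fun y => τ * y) '' uIcc 0 p.1 := ⟨s, hs, rfl⟩
    rw [image_const_mul_uIcc, mul_zero, uIcc_of_le hτp] at h1
    exact h1
  have h2 := hv _ hr
  rw [mem_preimage] at h2
  have h3 : chg τ σ (τ * s, (chgInv τ σ p).2) = (s, p.2 + 2 * p.1 - 2 * s) := by
    unfold chg chgInv
    ext
    · simp only; rw [← mul_assoc, hτ, one_mul]
    · simp only
      rw [← mul_assoc, ← mul_assoc τ τ, hτ, hσ2]; ring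
  rwa [h3] at h2

/-- Every GHD is contained in the explicit one, with the same `Ψ`. -/
theorem ghd_subset {Ω : Set (ℝ × ℝ)} {Φ : ℝ × ℝ → ℝ} (h : IsGHD φ₀ φ₁ Ω Φ) {p : ℝ × ℝ}
    (hp : p ∈ Ω) : p ∈ OmX (wData φ₀ φ₁) ∧
      Psi Φ p = wData φ₀ φ₁ (ft (wData φ₀ φ₁) (toC p)) - 4 := by
  have hw := contDiff_wData hφ₀ hφ₁ hne
  have hw0 := wData_ne hφ₀ hφ₁ hne
  set w := wData φ₀ φ₁ with hwdef
  obtain ⟨κ, τ, hκ, hτ, hτp, hκp⟩ := exists_signs hφ₀ hφ₁ hne h hp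
  obtain ⟨hσ2, hστ⟩ := sign_facts hφ₀ hφ₁ hne hκ hτ
  set σ := κ * τ with hσ
  have hκ0 : κ ≠ 0 := by rintro rfl; norm_num at hκ
  have hsol := isSol_of_isGHD h hτ hσ2
  set z := chgInv τ σ p with hzdef
  have hchgz : chg τ σ z = p := chg_chgInv hτ hσ2 p
  have huz : uVar Φ τ σ z = κ * (4 + Psi Φ p) := by
    unfold uVar
    rw [hchgz, hστ]
  have hz : (z.1, z.2) ∈ posPart (chg τ σ ⁻¹' Ω) (uVar Φ τ σ) := by
    constructor
    · rw [mem_preimage]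
      change chg τ σ z ∈ Ω
      rw [hchgz]; exact hp
    · change 0 < uVar Φ τ σ z
      rw [huz]; exact hκp
  have hz1 : 0 ≤ z.1 := hτp
  obtain ⟨hf1, hf2⟩ := good_foot hsol hz hz1
  set l := uVar Φ τ σ (z.1, z.2) with hl
  have hlz : l = κ * (4 + Psi Φ p) := huz
  -- the initial trace
  set w' : ℝ → ℝ := fun y => κ * w (σ * y) with hw'
  have htr : ∀ y, uVar Φ τ σ (0, y) = w' y := by
    intro y
    unfold uVar
    have h1 : chg τ σ (0, y) = (0, σ * y) := by unfold chg; simp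
    rw [h1, hστ, Psi_data hφ₀ hφ₁ hne h]
  have hw's : ContDiff ℝ ∞ w' := contDiff_const.mul (hw.comp (contDiff_const.mul contDiff_id))
  have hw'0 : ∀ y, w' y ≠ 0 := fun y => mul_ne_zero hκ0 (hw0 _)
  have htr' : ∀ y, fderiv ℝ (uVar Φ τ σ) (0, y) (0, 1) = deriv w' y := by
    intro y
    have h1 := hasDerivAt_trace hsol.isOpen hsol.smooth (hsol.line y)
    have h2 : (fun c => uVar Φ τ σ (0, c)) = w' := funext htr
    rw [h2] at h1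
    exact h1.deriv.symm
  set y0 := z.2 - l * z.1 with hy0
  have hy0le : y0 ≤ z.2 := by
    have : 0 < l := hz.2
    have := mul_nonneg this.le hz1
    linarith
  have hfoot : y0 + z.1 * w' y0 = z.2 := by
    rw [← htr y0, hf1]
    ring
  have hgood : Good w' y0 z.2 := by
    intro y hy
    rw [uIcc_of_le hy0le] at hy
    have h1 := (hf2 y hy).2
    rw [htr', htr] at h1
    exact h1
  have hzO : z ∈ OmC w' := ⟨y0, hfoot, hgood⟩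
  have hftz : ft w' z = y0 := ft_eq hw's hw'0 hfoot hgood
  obtain ⟨hr1, hr2⟩ := reflect_mem hw's hw'0 hκ hτ hσ hzO
  have hww : (fun y => κ * w' (σ * y)) = w := by
    funext y
    simp only [hw']
    rw [← mul_assoc, hκ, one_mul, ← mul_assoc, hσ2, one_mul]
  have hpt : (τ * z.1, σ * z.2) = toC p := by
    simp only [hzdef, chgInv, toC]
    rw [← mul_assoc, hτ, ← mul_assoc, hσ2, one_mul, one_mul]
  rw [hww, hpt] at hr1 hr2
  refine ⟨hr1, ?_⟩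
  rw [hr2, hftz]
  have h3 : w' y0 = l := by rw [← htr y0, hf1]
  have h4 : w (σ * y0) = κ * w' y0 := by
    simp only [hw']
    rw [← mul_assoc, hκ, one_mul]
  rw [h4, h3, hlz, ← mul_assoc, hκ]
  ring

theorem ghd_eqOn {Ω : Set (ℝ × ℝ)} {Φ : ℝ × ℝ → ℝ} (h : IsGHD φ₀ φ₁ Ω Φ) :
    EqOn (PhiX φ₀ (wData φ₀ φ₁)) Φ Ω := by
  intro p hp
  have hX := isGHD_explicit hφ₀ hφ₁ hne
  set w := wData φ₀ φ₁ with hwdef
  have hw := contDiff_wData hφ₀ hφ₁ hne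
  have hw0 := wData_ne hφ₀ hφ₁ hne
  set c := p.2 + 2 * p.1 with hc
  have hmem : ∀ s ∈ uIcc 0 p.1, (s, c - 2 * s) ∈ Ω := ghd_vertical hφ₀ hφ₁ hne h hp
  -- derivative along the ingoing line
  have hline : ∀ s : ℝ, HasDerivAt (fun s : ℝ => ((s, c - 2 * s) : ℝ × ℝ)) (1, -2) s := by
    intro s
    have h2 : HasDerivAt (fun s : ℝ => c - 2 * s) (-2) s := by
      simpa using ((hasDerivAt_id s).const_mul 2).const_sub c
    exact (hasDerivAt_id s).prodMk h2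
  have hder : ∀ (Ω' : Set (ℝ × ℝ)) (Φ' : ℝ × ℝ → ℝ), IsGHD φ₀ φ₁ Ω' Φ' → ∀ s : ℝ,
      (s, c - 2 * s) ∈ Ω' → HasDerivAt (fun s : ℝ => Φ' (s, c - 2 * s))
        (Psi Φ' (s, c - 2 * s)) s := by
    intro Ω' Φ' h' s hs
    have h1 : HasFDerivAt Φ' (fderiv ℝ Φ' (s, c - 2 * s)) (s, c - 2 * s) :=
      ((h'.smooth.contDiffAt (h'.isOpen.mem_nhds hs)).differentiableAt (by simp)).hasFDerivAt
    have h2 := h1.comp_hasDerivAt s (hline s)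
    have h3 : fderiv ℝ Φ' (s, c - 2 * s) (1, -2) = Psi Φ' (s, c - 2 * s) := by
      rw [fderiv_prod_apply]; unfold Psi; ring
    rw [h3] at h2
    exact h2
  have hD : ∀ s ∈ uIcc 0 p.1, HasDerivWithinAt
      (fun s : ℝ => PhiX φ₀ w (s, c - 2 * s) - Φ (s, c - 2 * s)) 0 (uIcc 0 p.1) s := by
    intro s hs
    have hs' := hmem s hs
    obtain ⟨h1, h2⟩ := ghd_subset hφ₀ hφ₁ hne h hs'
    have h3 := Psi_PhiX hw hw0 hφ₀ h1
    have h4 := (hder _ _ hX s h1).sub (hder _ _ h s hs')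
    rw [h3, h2, sub_self] at h4
    exact h4.hasDerivWithinAt
  have hb := Convex.norm_image_sub_le_of_norm_hasDerivWithin_le (C := 0) hD (by simp)
    (convex_uIcc 0 p.1) left_mem_uIcc right_mem_uIcc
  simp only [zero_mul, norm_le_zero_iff] at hb
  have e0 : PhiX φ₀ w (0, c - 2 * 0) = φ₀ c := by
    rw [mul_zero, sub_zero]; exact PhiX_zero hw hw0 c
  have e1 : Φ (0, c - 2 * 0) = φ₀ c := by
    rw [mul_zero, sub_zero]; exact h.data₀ c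
  rw [e0, e1, sub_self, sub_zero] at hb
  have e2 : ((p.1, c - 2 * p.1) : ℝ × ℝ) = p := by
    rw [hc]; ext
    · rfl
    · simp
  rw [e2] at hb
  linarith

/-- Existence and uniqueness of the maximal globally hyperbolic development. -/
theorem exists_unique_MGHD : ∃ (Ω : Set (ℝ × ℝ)) (Φ : ℝ × ℝ → ℝ), IsMGHD φ₀ φ₁ Ω Φ ∧
    ∀ (Ω' : Set (ℝ × ℝ)) (Φ' : ℝ × ℝ → ℝ), IsMGHD φ₀ φ₁ Ω' Φ' → Ω' = Ω ∧ EqOn Φ' Φ Ω := by
  have hX := isGHD_explicit hφ₀ hφ₁ hne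
  refine ⟨OmX (wData φ₀ φ₁), PhiX φ₀ (wData φ₀ φ₁), ⟨hX, ?_⟩, ?_⟩
  · intro Ω' Φ' h' hext
    exact Subset.antisymm (fun p hp => (ghd_subset hφ₀ hφ₁ hne h' hp).1) hext.1
  · intro Ω' Φ' h'
    have hsub : Ω' ⊆ OmX (wData φ₀ φ₁) := fun p hp => (ghd_subset hφ₀ hφ₁ hne h'.1 hp).1
    have heq := ghd_eqOn hφ₀ hφ₁ hne h'.1
    have hΩ : OmX (wData φ₀ φ₁) = Ω' := h'.2 _ _ hX ⟨hsub, heq⟩
    refine ⟨hΩ.symm, ?_⟩
    rw [hΩ]
    exact heq.symm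

end

end Pool.Agent.Helper5MGHD
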