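import Mathlib

set_option autoImplicit false

open Set Metric Filter Topology
open scoped NNReal

namespace Pool.Agent.Helper5MGHD

/-- Global solutions of scalar ODEs with bounded, globally Lipschitz right-hand side. -/
theorem ode_global (w : ℝ → ℝ → ℝ) (K B : ℝ≥0) (hcont : ∀ x, Continuous fun t => w t x)
    (hlip : ∀ t, LipschitzWith K (w t)) (hB : ∀ t x, ‖w t x‖ ≤ B) (t1 x1 : ℝ) :
    ∃ ξ : ℝ → ℝ, ξ t1 = x1 ∧ ∀ t, HasDerivAt ξ (w t (ξ t)) t := by
  have hex : ∀ n : ℕ, ∃ α : ℝ → ℝ, α t1 = x1 ∧ ∀ t ∈ Icc (t1 - (n + 1)) (t1 + (n + 1)),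
      HasDerivWithinAt α (w t (α t)) (Icc (t1 - (n + 1)) (t1 + (n + 1))) t := by
    intro n
    have hmem : t1 ∈ Icc (t1 - ((n : ℝ) + 1)) (t1 + (n + 1)) := by
      constructor <;> linarith [Nat.cast_nonneg (α := ℝ) n]
    have hPL : IsPicardLindelof w (⟨t1, hmem⟩ : Icc (t1 - ((n : ℝ) + 1)) (t1 + (n + 1))) x1
        (B * (n + 1)) 0 B K := by
      refine ⟨fun t _ => (hlip t).lipschitzOnWith, fun x _ => (hcont x).continuousOn,
        fun t _ x _ => hB t x, ?_⟩
      simp
    exact hPL.exists_eq_forall_mem_Icc_hasDerivWithinAt₀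
  choose α hα1 hα2 using hex
  have huniq : ∀ n m : ℕ, n ≤ m → EqOn (α n) (α m) (Icc (t1 - (n + 1)) (t1 + (n + 1))) := by
    intro n m hnm
    have hnm' : (n : ℝ) ≤ m := by exact_mod_cast hnm
    have hsub : Icc (t1 - ((n : ℝ) + 1)) (t1 + (n + 1)) ⊆ Icc (t1 - ((m : ℝ) + 1)) (t1 + (m + 1)) :=
      Icc_subset_Icc (by linarith) (by linarith)
    have hmem : t1 ∈ Ioo (t1 - ((n : ℝ) + 1)) (t1 + (n + 1)) := by
      constructor <;> linarith [Nat.cast_nonneg (α := ℝ) n]
    refine ODE_solution_unique_of_mem_Icc (v := w) (s := fun _ => univ) (K := K)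
      (fun t _ => (hlip t).lipschitzOnWith) hmem ?_ ?_ (fun _ _ => trivial) ?_ ?_
      (fun _ _ => trivial) ?_
    · exact fun t ht => (hα2 n t ht).continuousWithinAt
    · exact fun t ht => (hα2 n t (Ioo_subset_Icc_self ht)).hasDerivAt (Icc_mem_nhds ht.1 ht.2)
    · exact fun t ht => ((hα2 m t (hsub ht)).mono hsub).continuousWithinAt
    · exact fun t ht => ((hα2 m t (hsub (Ioo_subset_Icc_self ht))).mono hsub).hasDerivAt
        (Icc_mem_nhds ht.1 ht.2)
    · rw [hα1, hα1]
  refine ⟨fun t => α ⌈|t - t1|⌉₊ t, ?_, ?_⟩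
  · simp [hα1]
  · intro t
    set N := ⌈|t - t1|⌉₊ + 1 with hN
    have hev : (fun s => α ⌈|s - t1|⌉₊ s) =ᶠ[𝓝 t] α N := by
      have : ∀ᶠ s in 𝓝 t, |s - t1| < |t - t1| + 1 := by
        have hc : Continuous fun s : ℝ => |s - t1| := by fun_prop
        exact hc.continuousAt.eventually_lt continuousAt_const (by simp)
      filter_upwards [this] with s hs
      have h1 : ⌈|s - t1|⌉₊ ≤ N := by
        rw [hN]
        apply Nat.ceil_le.2
        push_cast
        have := Nat.le_ceil |t - t1|
        linarith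
      have h2 := Nat.le_ceil |s - t1|
      have h3 := abs_le.1 h2
      exact huniq _ _ h1 ⟨by linarith [h3.1], by linarith [h3.2]⟩
    have h2 := Nat.le_ceil |t - t1|
    have h3 := abs_le.1 h2
    have hd : HasDerivAt (α N) (w t (α N t)) t := by
      apply (hα2 N t _).hasDerivAt (Icc_mem_nhds _ _)
      · rw [hN]; push_cast
        exact ⟨by linarith [h3.1], by linarith [h3.2]⟩
      · rw [hN]; push_cast
        linarith [h3.1]
      · rw [hN]; push_cast
        linarith [h3.2]
    have := hd.congr_of_eventuallyEq hev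
    rwa [← hev.eq_of_nhds] at this

/-- A Lipschitz function squeezed strictly between `0` and a given positive function on an open
set, vanishing off the set, with a prescribed value at a point. -/
theorem lip_minorant (U : Set (ℝ × ℝ)) (hU : IsOpen U) (v : ℝ × ℝ → ℝ) (hv : ContinuousOn v U)
    (hpos : ∀ z ∈ U, 0 < v z) (p : ℝ × ℝ) (hp : p ∈ U) (a : ℝ) (ha : 0 < a) (hav : a < v p) :
    ∃ (K : ℝ≥0) (w : ℝ × ℝ → ℝ), LipschitzWith K w ∧ (∀ z, z ∉ U → w z = 0) ∧
      (∀ z ∈ U, 0 < w z ∧ w z < v z) ∧ (∀ z, 0 ≤ w z ∧ w z ≤ a) ∧ w p = a := by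
  classical
  -- a ball around `p` in `U` where `v > a`
  obtain ⟨r, hr, hball⟩ : ∃ r > 0, ∀ y ∈ ball p r, y ∈ U ∧ a < v y := by
    have h1 : ∀ᶠ y in 𝓝 p, y ∈ U ∧ a < v y :=
      (hU.eventually_mem hp).and ((hv.continuousAt (hU.mem_nhds hp)).eventually_const_lt hav)
    exact Metric.eventually_nhds_iff_ball.1 h1
  let κ : ℝ × ℝ → ℝ := fun y => if y ∈ ball p r then a else if y ∈ U then min a (v y / 2) else 0
  have κ_nonneg : ∀ y, 0 ≤ κ y := by
    intro y
    simp only [κ]
    split_ifs with h1 h2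
    · exact ha.le
    · exact le_min ha.le (by linarith [hpos y h2])
    · exact le_rfl
  have κ_le : ∀ y, κ y ≤ a := by
    intro y
    simp only [κ]
    split_ifs with h1 h2
    · exact le_rfl
    · exact min_le_left _ _
    · exact ha.le
  let K : ℝ≥0 := ⟨a / r, by positivity⟩
  have hK : (K : ℝ) = a / r := rfl
  have hKpos : 0 < (K : ℝ) := by rw [hK]; positivity
  let w : ℝ × ℝ → ℝ := fun z => ⨅ y, (κ y + K * dist z y)
  have hbdd : ∀ z, BddBelow (range fun y => κ y + K * dist z y) := by
    intro z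
    refine ⟨0, ?_⟩
    rintro _ ⟨y, rfl⟩
    have := κ_nonneg y
    positivity
  have w_nonneg : ∀ z, 0 ≤ w z := by
    intro z
    apply le_ciInf
    intro y
    have := κ_nonneg y
    positivity
  have w_le : ∀ z, w z ≤ κ z := by
    intro z
    have := ciInf_le (hbdd z) z
    simpa using this
  have w_lip : ∀ z z', w z ≤ w z' + K * dist z z' := by
    intro z z'
    have : w z - K * dist z z' ≤ w z' := by
      apply le_ciInf
      intro y
      have h1 := ciInf_le (hbdd z) y
      have h2 : dist z y ≤ dist z z' + dist z' y := dist_triangle _ _ _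
      have h3 : (K : ℝ) * dist z y ≤ K * (dist z z' + dist z' y) := by gcongr
      have h4 : w z ≤ κ y + K * dist z y := h1
      linarith
    linarith
  refine ⟨K, w, ?_, ?_, ?_, ?_, ?_⟩
  · exact LipschitzWith.of_le_add_mul K w_lip
  · intro z hz
    have h1 : κ z = 0 := by
      simp only [κ]
      rw [if_neg (fun h => hz (hball z h).1), if_neg hz]
    exact le_antisymm (h1 ▸ w_le z) (w_nonneg z)
  · intro z hz
    constructor
    · -- positivity
      obtain ⟨ρ, hρ, hρ'⟩ : ∃ ρ > 0, ∀ y ∈ ball z ρ, y ∈ U ∧ v z / 2 < v y := by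
        have h1 : ∀ᶠ y in 𝓝 z, y ∈ U ∧ v z / 2 < v y :=
          (hU.eventually_mem hz).and ((hv.continuousAt (hU.mem_nhds hz)).eventually_const_lt
            (by linarith [hpos z hz]))
        exact Metric.eventually_nhds_iff_ball.1 h1
      have hm : 0 < min (min a (v z / 4)) (K * ρ) := by
        have := hpos z hz
        have h1 : 0 < v z / 4 := by linarith
        have h2 : 0 < (K : ℝ) * ρ := by positivity
        exact lt_min (lt_min ha h1) h2
      refine lt_of_lt_of_le hm ?_
      apply le_ciInf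
      intro y
      by_cases hy : y ∈ ball z ρ
      · have h1 := (hρ' y hy).1
        have h2 := (hρ' y hy).2
        have h3 : min a (v z / 4) ≤ κ y := by
          simp only [κ]
          split_ifs with h5
          · exact min_le_left _ _
          · exact min_le_min_left _ (by linarith)
        have : 0 ≤ (K : ℝ) * dist z y := by positivity
        calc min (min a (v z / 4)) (K * ρ) ≤ min a (v z / 4) := min_le_left _ _
          _ ≤ κ y := h3
          _ ≤ κ y + K * dist z y := by linarith
      · have h1 : ρ ≤ dist z y := by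
          rw [mem_ball, not_lt, dist_comm] at hy
          exact hy
        have h2 : (K : ℝ) * ρ ≤ K * dist z y := by gcongr
        calc min (min a (v z / 4)) (K * ρ) ≤ K * ρ := min_le_right _ _
          _ ≤ K * dist z y := h2
          _ ≤ κ y + K * dist z y := by linarith [κ_nonneg y]
    · refine lt_of_le_of_lt (w_le z) ?_
      simp only [κ]
      split_ifs with h1
      · exact (hball z h1).2
      · exact lt_of_le_of_lt (min_le_right _ _) (by linarith [hpos z hz])
  · exact fun z => ⟨w_nonneg z, (w_le z).trans (κ_le z)⟩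
  · apply le_antisymm ((w_le p).trans (κ_le p))
    apply le_ciInf
    intro y
    by_cases hy : y ∈ ball p r
    · have : κ y = a := by simp only [κ]; rw [if_pos hy]
      rw [this]
      have : 0 ≤ (K : ℝ) * dist p y := by positivity
      linarith
    · have h1 : r ≤ dist p y := by
        rw [mem_ball, not_lt, dist_comm] at hy
        exact hy
      have h2 : (K : ℝ) * r ≤ K * dist p y := by gcongr
      have h3 : (K : ℝ) * r = a := by rw [hK]; field_simp
      linarith [κ_nonneg y]

end Pool.Agent.Helper5MGHD
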