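import Pool.Agent.Helper5_MGHD.Defs
import Pool.Agent.Helper5_MGHD.Foot

set_option autoImplicit false

open Set Metric Filter Topology
open scoped NNReal ContDiff

namespace Pool.Agent.Helper5MGHD

theorem gQuad_eq (ψ : ℝ) (hψ : ψ ≠ -4) (v : ℝ × ℝ) :
    gQuad ψ v = -(4 / (ψ + 4) ^ 2) * ((2 * v.1 + v.2) * ((2 + ψ) * v.1 - v.2)) := by
  have h4 : ψ + 4 ≠ 0 := fun h => hψ (by linarith)
  have hdet : (gInv ψ).det = -((ψ + 4) ^ 2 / 4) := by
    rw [gInv, Matrix.det_fin_two_of]; ring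
  have hinv : (gInv ψ)⁻¹ = (-(4 / (ψ + 4) ^ 2)) • !![2 * (2 + ψ), ψ / 2; ψ / 2, -1] := by
    rw [Matrix.inv_def, hdet, gInv, Matrix.adjugate_fin_two_of, Ring.inverse_eq_inv']
    congr 1
    · field_simp
    · congr 1
      ext i j
      fin_cases i <;> fin_cases j <;> simp <;> ring
  rw [gQuad, hinv]
  simp [Matrix.mulVec, dotProduct, Fin.sum_univ_two]
  ring

theorem gQuad_neg_iff (ψ : ℝ) (hψ : ψ ≠ -4) (v : ℝ × ℝ) :
    gQuad ψ v < 0 ↔ 0 < (2 * v.1 + v.2) * ((2 + ψ) * v.1 - v.2) := by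
  have h4 : ψ + 4 ≠ 0 := fun h => hψ (by linarith)
  rw [gQuad_eq ψ hψ]
  have hpos : 0 < 4 / (ψ + 4) ^ 2 := by positivity
  constructor
  · intro h
    by_contra hneg
    push Not at hneg
    have : 0 ≤ -(4 / (ψ + 4) ^ 2) * ((2 * v.1 + v.2) * ((2 + ψ) * v.1 - v.2)) :=
      mul_nonneg_of_nonpos_of_nonpos (by linarith) hneg
    linarith
  · intro h
    have := mul_pos hpos h
    linarith

section smooth
variable {Ω : Set (ℝ × ℝ)} {Φ : ℝ × ℝ → ℝ}

theorem contDiffOn_dt (ho : IsOpen Ω) (hs : ContDiffOn ℝ ∞ Φ Ω) : ContDiffOn ℝ ∞ (dt Φ) Ω :=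
  (hs.fderiv_of_isOpen ho (m := ∞) (by simp)).clm_apply contDiffOn_const

theorem contDiffOn_dx (ho : IsOpen Ω) (hs : ContDiffOn ℝ ∞ Φ Ω) : ContDiffOn ℝ ∞ (dx Φ) Ω :=
  (hs.fderiv_of_isOpen ho (m := ∞) (by simp)).clm_apply contDiffOn_const

theorem contDiffOn_Psi (ho : IsOpen Ω) (hs : ContDiffOn ℝ ∞ Φ Ω) : ContDiffOn ℝ ∞ (Psi Φ) Ω :=
  (contDiffOn_dt ho hs).sub (contDiffOn_const.mul (contDiffOn_dx ho hs))

theorem fderiv_prod_apply {F : ℝ × ℝ → ℝ} (p : ℝ × ℝ) (a b : ℝ) :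
    fderiv ℝ F p (a, b) = a * dt F p + b * dx F p := by
  have : ((a, b) : ℝ × ℝ) = a • ((1 : ℝ), (0 : ℝ)) + b • ((0 : ℝ), (1 : ℝ)) := by
    ext <;> simp
  rw [this, map_add, map_smul, map_smul]
  rfl

/-- The derivative of `Ψ` along the outgoing characteristic direction in terms of second
derivatives of `Φ`. -/
theorem fderiv_Psi (ho : IsOpen Ω) (hs : ContDiffOn ℝ ∞ Φ Ω) {p : ℝ × ℝ} (hp : p ∈ Ω) :
    fderiv ℝ (Psi Φ) p (1, 2 + Psi Φ p) =
      -(-(dt (dt Φ) p) - Psi Φ p * dt (dx Φ) p + 2 * (2 + Psi Φ p) * dx (dx Φ) p) := by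
  have h1 : DifferentiableAt ℝ (dt Φ) p :=
    ((contDiffOn_dt ho hs).contDiffAt (ho.mem_nhds hp)).differentiableAt (by simp)
  have h2 : DifferentiableAt ℝ (dx Φ) p :=
    ((contDiffOn_dx ho hs).contDiffAt (ho.mem_nhds hp)).differentiableAt (by simp)
  have h3 : fderiv ℝ (Psi Φ) p = fderiv ℝ (dt Φ) p - (2 : ℝ) • fderiv ℝ (dx Φ) p := by
    have h4 : HasFDerivAt (Psi Φ) (fderiv ℝ (dt Φ) p - (2 : ℝ) • fderiv ℝ (dx Φ) p) p :=
      h1.hasFDerivAt.sub (h2.hasFDerivAt.const_mul 2)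
    exact h4.fderiv
  -- symmetry of second derivatives
  have hC : ContDiffAt ℝ 2 Φ p := (hs.contDiffAt (ho.mem_nhds hp)).of_le ENat.LEInfty.out
  have hsymm : IsSymmSndFDerivAt ℝ Φ p := hC.isSymmSndFDerivAt (by simp)
  have hD : DifferentiableAt ℝ (fderiv ℝ Φ) p :=
    ((hs.fderiv_of_isOpen ho (m := ∞) (by simp)).contDiffAt
      (ho.mem_nhds hp)).differentiableAt (by simp)
  have hdd : ∀ v w : ℝ × ℝ, fderiv ℝ (fun q => fderiv ℝ Φ q v) p w =
      fderiv ℝ (fderiv ℝ Φ) p w v := by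
    intro v w
    have := hD.hasFDerivAt.clm_apply (hasFDerivAt_const v p)
    rw [this.fderiv]
    simp
  have hxt : dx (dt Φ) p = dt (dx Φ) p := by
    have e1 : dx (dt Φ) p = fderiv ℝ (fderiv ℝ Φ) p (0, 1) (1, 0) := hdd _ _
    have e2 : dt (dx Φ) p = fderiv ℝ (fderiv ℝ Φ) p (1, 0) (0, 1) := hdd _ _
    rw [e1, e2]
    exact hsymm _ _
  rw [h3]
  simp only [sub_apply, smul_apply, smul_eq_mul]
  rw [fderiv_prod_apply, fderiv_prod_apply, hxt]
  ring

end smooth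

/-- The linear change of variables `(t, c) ↦ (τ t, σ c - 2 τ t)`. -/
def chg (τ σ : ℝ) (z : ℝ × ℝ) : ℝ × ℝ := (τ * z.1, σ * z.2 - 2 * (τ * z.1))

/-- its inverse when `τ² = σ² = 1` -/
def chgInv (τ σ : ℝ) (p : ℝ × ℝ) : ℝ × ℝ := (τ * p.1, σ * (p.2 + 2 * p.1))

theorem continuous_chg (τ σ : ℝ) : Continuous (chg τ σ) := by unfold chg; fun_prop
theorem continuous_chgInv (τ σ : ℝ) : Continuous (chgInv τ σ) := by unfold chgInv; fun_prop

theorem chgInv_chg {τ σ : ℝ} (hτ : τ * τ = 1) (hσ : σ * σ = 1) (z : ℝ × ℝ) :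
    chgInv τ σ (chg τ σ z) = z := by
  unfold chg chgInv
  ext
  · simp only; rw [← mul_assoc, hτ, one_mul]
  · simp only
    have : σ * (σ * z.2 - 2 * (τ * z.1) + 2 * (τ * z.1)) = (σ * σ) * z.2 := by ring
    rw [this, hσ, one_mul]

theorem chg_chgInv {τ σ : ℝ} (hτ : τ * τ = 1) (hσ : σ * σ = 1) (p : ℝ × ℝ) :
    chg τ σ (chgInv τ σ p) = p := by
  unfold chg chgInv
  ext
  · simp only; rw [← mul_assoc, hτ, one_mul]
  · simp only
    have : σ * (σ * (p.2 + 2 * p.1)) - 2 * (τ * (τ * p.1)) =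
        (σ * σ) * (p.2 + 2 * p.1) - 2 * ((τ * τ) * p.1) := by ring
    rw [this, hσ, hτ]; ring

/-- `u` in the variant coordinates -/
noncomputable def uVar (Φ : ℝ × ℝ → ℝ) (τ σ : ℝ) (z : ℝ × ℝ) : ℝ :=
  σ * τ * (4 + Psi Φ (chg τ σ z))

theorem isSol_of_isGHD {φ₀ φ₁ : ℝ → ℝ} {Ω : Set (ℝ × ℝ)} {Φ : ℝ × ℝ → ℝ}
    (h : IsGHD φ₀ φ₁ Ω Φ) {τ σ : ℝ} (hτ : τ * τ = 1) (hσ : σ * σ = 1) :
    IsSol (chg τ σ ⁻¹' Ω) (uVar Φ τ σ) := by
  have hτ0 : τ ≠ 0 := by rintro rfl; norm_num at hτ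
  have hσ0 : σ ≠ 0 := by rintro rfl; norm_num at hσ
  have hPs := contDiffOn_Psi h.isOpen h.smooth
  have hchgd : ContDiff ℝ 1 (chg τ σ) := by unfold chg; fun_prop
  refine ⟨h.isOpen.preimage (continuous_chg τ σ), ?_, ?_, ?_, ?_, ?_⟩
  · have h1 : ContDiffOn ℝ 1 (fun z => Psi Φ (chg τ σ z)) (chg τ σ ⁻¹' Ω) :=
      (hPs.of_le (by simp)).comp hchgd.contDiffOn (fun z hz => hz)
    exact contDiffOn_const.mul (contDiffOn_const.add h1)
  · intro z hz
    have := h.nondegenerate _ hz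
    unfold uVar
    refine mul_ne_zero (mul_ne_zero hσ0 hτ0) ?_
    intro h0
    exact this (by linarith)
  · intro z hz
    have hdP : DifferentiableAt ℝ (Psi Φ) (chg τ σ z) :=
      (hPs.contDiffAt (h.isOpen.mem_nhds hz)).differentiableAt (by simp)
    have hline : HasDerivAt (fun s : ℝ => chg τ σ (z + s • ((1 : ℝ), uVar Φ τ σ z)))
        ((τ, σ * uVar Φ τ σ z - 2 * τ) : ℝ × ℝ) 0 := by
      unfold chg
      apply HasDerivAt.prodMk
      · have : HasDerivAt (fun s : ℝ => τ * (z.1 + s * 1)) (τ * (1 * 1)) 0 :=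
          (((hasDerivAt_id (0 : ℝ)).mul_const 1).const_add z.1).const_mul τ
        simpa using this
      · have h1 : HasDerivAt (fun s : ℝ => σ * (z.2 + s * uVar Φ τ σ z))
            (σ * (1 * uVar Φ τ σ z)) 0 :=
          (((hasDerivAt_id (0 : ℝ)).mul_const _).const_add z.2).const_mul σ
        have h2 : HasDerivAt (fun s : ℝ => 2 * (τ * (z.1 + s * 1))) (2 * (τ * (1 * 1))) 0 :=
          ((((hasDerivAt_id (0 : ℝ)).mul_const 1).const_add z.1).const_mul τ).const_mul 2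
        have h3 : HasDerivAt (fun s : ℝ => σ * (z.2 + s * uVar Φ τ σ z) -
            2 * (τ * (z.1 + s * 1))) (σ * (1 * uVar Φ τ σ z) - 2 * (τ * (1 * 1))) 0 := h1.sub h2
        simpa using h3
    have hud : DifferentiableAt ℝ (uVar Φ τ σ) z := by
      unfold uVar
      exact ((hdP.comp z hchgd.contDiffAt.differentiableAt_one).const_add 4).const_mul (σ * τ)
    have hline2 : HasDerivAt (fun s : ℝ => z + s • ((1 : ℝ), uVar Φ τ σ z))
        ((1 : ℝ), uVar Φ τ σ z) 0 := by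
      have := ((hasDerivAt_id (0 : ℝ)).smul_const ((1 : ℝ), uVar Φ τ σ z)).const_add z
      simpa using this
    have e1 : HasDerivAt (fun s : ℝ => uVar Φ τ σ (z + s • ((1 : ℝ), uVar Φ τ σ z)))
        (fderiv ℝ (uVar Φ τ σ) z (1, uVar Φ τ σ z)) 0 := by
      have h0 : z + (0 : ℝ) • ((1 : ℝ), uVar Φ τ σ z) = z := by simp
      have h1 : HasFDerivAt (uVar Φ τ σ) (fderiv ℝ (uVar Φ τ σ) z)
          (z + (0 : ℝ) • ((1 : ℝ), uVar Φ τ σ z)) := by rw [h0]; exact hud.hasFDerivAt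
      exact h1.comp_hasDerivAt (0 : ℝ) hline2
    have e2 : HasDerivAt (fun s : ℝ => uVar Φ τ σ (z + s • ((1 : ℝ), uVar Φ τ σ z)))
        (σ * τ * (fderiv ℝ (Psi Φ) (chg τ σ z) (τ, σ * uVar Φ τ σ z - 2 * τ))) 0 := by
      have h0 : chg τ σ (z + (0 : ℝ) • ((1 : ℝ), uVar Φ τ σ z)) = chg τ σ z := by simp
      have h1 : HasFDerivAt (Psi Φ) (fderiv ℝ (Psi Φ) (chg τ σ z))
          (chg τ σ (z + (0 : ℝ) • ((1 : ℝ), uVar Φ τ σ z))) := by
        rw [h0]; exact hdP.hasFDerivAt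
      exact ((h1.comp_hasDerivAt (0 : ℝ) hline).const_add 4).const_mul (σ * τ)
    rw [e1.unique e2]
    have e3 : ((τ, σ * uVar Φ τ σ z - 2 * τ) : ℝ × ℝ) = τ • ((1 : ℝ), 2 + Psi Φ (chg τ σ z)) := by
      unfold uVar
      ext
      · simp
      · simp only [Prod.smul_mk, smul_eq_mul]
        have : σ * (σ * τ * (4 + Psi Φ (chg τ σ z))) - 2 * τ =
          (σ * σ) * τ * (4 + Psi Φ (chg τ σ z)) - 2 * τ := by ring
        rw [this, hσ]; ring
    rw [e3, map_smul, fderiv_Psi h.isOpen h.smooth hz, h.wave _ hz]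
    simp
  · intro c
    have := h.line_subset (σ * c)
    simpa [chg] using this
  · intro I ξ hIo hIord hIne hξ hcurve htop hbot
    have hξd : ∀ s ∈ I, HasDerivAt ξ (deriv ξ s) s := fun s hs =>
      ((hξ.contDiffAt (hIo.mem_nhds hs)).differentiableAt one_ne_zero).hasDerivAt
    have hγd : ∀ s ∈ I, HasDerivAt (fun s => chg τ σ (s, ξ s))
        ((τ, σ * deriv ξ s - 2 * τ) : ℝ × ℝ) s := by
      intro s hs
      unfold chg
      apply HasDerivAt.prodMk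
      · simpa using (hasDerivAt_id s).const_mul τ
      · have h1 := (hξd s hs).const_mul σ
        have h2 : HasDerivAt (fun s : ℝ => 2 * (τ * s)) (2 * τ) s := by
          simpa using ((hasDerivAt_id s).const_mul τ).const_mul 2
        exact h1.sub h2
    have hcurveG : IsInextendibleTimelikeCurve Ω Φ I (fun s => chg τ σ (s, ξ s)) := by
      refine ⟨hIo, hIord, hIne, ?_, fun s hs => (hcurve s hs).1, ?_, ?_, ?_⟩
      · exact hchgd.comp_contDiffOn (contDiffOn_id.prodMk hξ)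
      · intro s hs
        rw [(hγd s hs).deriv, gQuad_neg_iff _ (h.nondegenerate _ (hcurve s hs).1)]
        have h1 := (hcurve s hs).2
        unfold uVar at h1
        simp only
        set ψ := Psi Φ (chg τ σ (s, ξ s)) with hψ
        have h2 : (2 * τ + (σ * deriv ξ s - 2 * τ)) * ((2 + ψ) * τ - (σ * deriv ξ s - 2 * τ)) =
            σ * τ * (4 + ψ) * deriv ξ s - (σ * σ) * deriv ξ s ^ 2 := by ring
        rw [h2, hσ]
        nlinarith [h1]
      · rintro ⟨q, hq, hlim⟩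
        apply htop
        refine ⟨chgInv τ σ q, ?_, ?_⟩
        · rw [mem_preimage, chg_chgInv hτ hσ]; exact hq
        · have := ((continuous_chgInv τ σ).tendsto q).comp hlim
          refine this.congr fun s => ?_
          simp only [Function.comp]
          rw [chgInv_chg hτ hσ]
      · rintro ⟨q, hq, hlim⟩
        apply hbot
        refine ⟨chgInv τ σ q, ?_, ?_⟩
        · rw [mem_preimage, chg_chgInv hτ hσ]; exact hq
        · have := ((continuous_chgInv τ σ).tendsto q).comp hlim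
          refine this.congr fun s => ?_
          simp only [Function.comp]
          rw [chgInv_chg hτ hσ]
    obtain ⟨s, ⟨hsI, hs0⟩, -⟩ := h.cauchy I _ hcurveG
    have : s = 0 := by
      simp only [chg] at hs0
      exact (mul_eq_zero.1 hs0).resolve_left hτ0
    rwa [this] at hsI

end Pool.Agent.Helper5MGHD
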