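import Pool.Agent.Helper5_MGHD.Explicit
import Pool.Agent.Helper5_MGHD.Translate

set_option autoImplicit false
set_option linter.unusedSectionVars false

open Set Metric Filter Topology
open scoped NNReal ContDiff

namespace Pool.Agent.Helper5MGHD

/-- coordinates `(t, c)` with `c = x + 2 t` -/
def toC (p : ℝ × ℝ) : ℝ × ℝ := (p.1, p.2 + 2 * p.1)

/-- the explicit maximal domain -/
def OmX (w : ℝ → ℝ) : Set (ℝ × ℝ) := toC ⁻¹' OmC w

/-- an antiderivative of `log |w|` -/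
noncomputable def Blog (w : ℝ → ℝ) (y : ℝ) : ℝ := ∫ s in (0 : ℝ)..y, Real.log (w s)

/-- the explicit solution -/
noncomputable def PhiX (φ₀ w : ℝ → ℝ) (p : ℝ × ℝ) : ℝ :=
  φ₀ (p.2 + 2 * p.1) - 4 * p.1 +
    p.1 * (w (ft w (toC p)) * (1 - Real.log (w (ft w (toC p))))) +
    (Blog w (p.2 + 2 * p.1) - Blog w (ft w (toC p)))

section
variable {w : ℝ → ℝ} (hw : ContDiff ℝ ∞ w) (hw0 : ∀ x, w x ≠ 0)
  {φ₀ : ℝ → ℝ} (hφ : ContDiff ℝ ∞ φ₀)
include hw hw0

theorem contDiff_toC : ContDiff ℝ ∞ toC := by unfold toC; fun_prop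

theorem contDiff_log_w : ContDiff ℝ ∞ fun s => Real.log (w s) :=
  hw.log hw0

theorem Blog_hasDerivAt (y : ℝ) : HasDerivAt (Blog w) (Real.log (w y)) y := by
  have hc : Continuous fun s => Real.log (w s) := (contDiff_log_w hw hw0).continuous
  exact intervalIntegral.integral_hasDerivAt_right (hc.intervalIntegrable _ _)
    (hc.stronglyMeasurableAtFilter _ _) hc.continuousAt

theorem contDiff_Blog : ContDiff ℝ ∞ (Blog w) := by
  rw [contDiff_infty_iff_deriv]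
  refine ⟨fun y => (Blog_hasDerivAt hw hw0 y).differentiableAt, ?_⟩
  have : deriv (Blog w) = fun y => Real.log (w y) := funext fun y => (Blog_hasDerivAt hw hw0 y).deriv
  rw [this]
  exact contDiff_log_w hw hw0

theorem isOpen_OmX : IsOpen (OmX w) :=
  (isOpen_OmC hw hw0).preimage (contDiff_toC hw hw0).continuous

include hφ in
theorem contDiffOn_PhiX : ContDiffOn ℝ ∞ (PhiX φ₀ w) (OmX w) := by
  intro p hp
  apply ContDiffAt.contDiffWithinAt
  have hft : ContDiffAt ℝ ∞ (fun p => ft w (toC p)) p :=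
    (contDiffAt_ft hw hw0 hp).comp p (contDiff_toC hw hw0).contDiffAt
  have hwft : ContDiffAt ℝ ∞ (fun p => w (ft w (toC p))) p := hw.contDiffAt.comp p hft
  have hlog : ContDiffAt ℝ ∞ (fun p => Real.log (w (ft w (toC p)))) p :=
    (contDiff_log_w hw hw0).contDiffAt.comp p hft
  have hB : ContDiffAt ℝ ∞ (fun p => Blog w (ft w (toC p))) p :=
    (contDiff_Blog hw hw0).contDiffAt.comp p hft
  have hc : ContDiff ℝ ∞ fun p : ℝ × ℝ => p.2 + 2 * p.1 := by fun_prop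
  have h1 : ContDiffAt ℝ ∞ (fun p : ℝ × ℝ => φ₀ (p.2 + 2 * p.1)) p := (hφ.comp hc).contDiffAt
  have h2 : ContDiffAt ℝ ∞ (fun p : ℝ × ℝ => Blog w (p.2 + 2 * p.1)) p :=
    ((contDiff_Blog hw hw0).comp hc).contDiffAt
  have h3 : ContDiffAt ℝ ∞ (fun p : ℝ × ℝ => 4 * p.1) p := by fun_prop
  exact ((h1.sub h3).add (contDiffAt_fst.mul (hwft.mul (contDiffAt_const.sub hlog)))).add
    (h2.sub hB)

include hφ in
theorem Psi_PhiX {p : ℝ × ℝ} (hp : p ∈ OmX w) :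
    Psi (PhiX φ₀ w) p = w (ft w (toC p)) - 4 := by
  have hz : toC p ∈ OmC w := hp
  have hd : DifferentiableAt ℝ (PhiX φ₀ w) p :=
    ((contDiffOn_PhiX hw hw0 hφ).contDiffAt ((isOpen_OmX hw hw0).mem_nhds hp)).differentiableAt
      (by simp)
  -- `Ψ` is the derivative along `(1, -2)`
  have h0 : Psi (PhiX φ₀ w) p = fderiv ℝ (PhiX φ₀ w) p (1, -2) := by
    rw [fderiv_prod_apply]; unfold Psi; ring
  have hline : HasDerivAt (fun s : ℝ => ((p.1 + s, p.2 - 2 * s) : ℝ × ℝ)) (1, -2) 0 := by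
    have h1 : HasDerivAt (fun s : ℝ => p.1 + s) 1 0 := (hasDerivAt_id (0 : ℝ)).const_add p.1
    have h2 : HasDerivAt (fun s : ℝ => p.2 - 2 * s) (-2) 0 := by
      simpa using ((hasDerivAt_id (0 : ℝ)).const_mul 2).const_sub p.2
    exact h1.prodMk h2
  have e1 : HasDerivAt (fun s : ℝ => PhiX φ₀ w (p.1 + s, p.2 - 2 * s))
      (fderiv ℝ (PhiX φ₀ w) p (1, -2)) 0 := by
    have h1 : HasFDerivAt (PhiX φ₀ w) (fderiv ℝ (PhiX φ₀ w) p)
        ((p.1 + 0, p.2 - 2 * 0) : ℝ × ℝ) := by simpa using hd.hasFDerivAt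
    exact h1.comp_hasDerivAt (0 : ℝ) hline
  -- the foot along the line
  set k := fderiv ℝ (ft w) (toC p) (1, 0) with hk
  set ξ := ft w (toC p) with hξ
  have hkeq : k * (1 + p.1 * deriv w ξ) + w ξ = 0 := by
    have := fderiv_ft hw hw0 hz 1 0
    rw [← hk, ← hξ] at this
    simpa [toC] using this
  have hlineC : HasDerivAt (fun s : ℝ => ((p.1 + s, p.2 + 2 * p.1) : ℝ × ℝ)) (1, 0) 0 :=
    ((hasDerivAt_id (0 : ℝ)).const_add p.1).prodMk (hasDerivAt_const _ _)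
  have hf : HasDerivAt (fun s : ℝ => ft w (p.1 + s, p.2 + 2 * p.1)) k 0 := by
    have h1 : HasFDerivAt (ft w) (fderiv ℝ (ft w) (toC p))
        ((p.1 + 0, p.2 + 2 * p.1) : ℝ × ℝ) := by
      have : ((p.1 + 0, p.2 + 2 * p.1) : ℝ × ℝ) = toC p := by simp [toC]
      rw [this]
      exact ((contDiffAt_ft hw hw0 hz).differentiableAt (by simp)).hasFDerivAt
    exact h1.comp_hasDerivAt (0 : ℝ) hlineC
  have hf0 : ft w (p.1 + 0, p.2 + 2 * p.1) = ξ := by simp [hξ, toC]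
  have hf0' : ft w (p.1, p.2 + 2 * p.1) = ξ := rfl
  have e2 : HasDerivAt (fun s : ℝ => PhiX φ₀ w (p.1 + s, p.2 - 2 * s))
      (0 - 4 * 1 + (1 * (w ξ * (1 - Real.log (w ξ))) +
        p.1 * ((deriv w ξ * k) * (1 - Real.log (w ξ)) + w ξ * (0 - (deriv w ξ * k) / w ξ))) +
        (0 - Real.log (w ξ) * k)) 0 := by
    have hfun : (fun s : ℝ => PhiX φ₀ w (p.1 + s, p.2 - 2 * s)) = fun s : ℝ =>
        φ₀ (p.2 + 2 * p.1) - 4 * (p.1 + s) +
        (p.1 + s) * (w (ft w (p.1 + s, p.2 + 2 * p.1)) *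
          (1 - Real.log (w (ft w (p.1 + s, p.2 + 2 * p.1))))) +
        (Blog w (p.2 + 2 * p.1) - Blog w (ft w (p.1 + s, p.2 + 2 * p.1))) := by
      funext s
      have : p.2 - 2 * s + 2 * (p.1 + s) = p.2 + 2 * p.1 := by ring
      simp only [PhiX, toC, this]
    rw [hfun]
    have hw1 : HasDerivAt (fun s : ℝ => w (ft w (p.1 + s, p.2 + 2 * p.1))) (deriv w ξ * k) 0 := by
      have h1 : HasDerivAt w (deriv w ξ) (ft w (p.1 + 0, p.2 + 2 * p.1)) := by
        rw [hf0]; exact w_hasDerivAt hw hw0 ξ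
      exact h1.comp (0 : ℝ) hf
    have hw2 : HasDerivAt (fun s : ℝ => Real.log (w (ft w (p.1 + s, p.2 + 2 * p.1))))
        ((deriv w ξ * k) / w ξ) 0 := by
      have := hw1.log (by rw [hf0]; exact hw0 _)
      rwa [hf0] at this
    have hB1 : HasDerivAt (fun s : ℝ => Blog w (ft w (p.1 + s, p.2 + 2 * p.1)))
        (Real.log (w ξ) * k) 0 := by
      have h1 : HasDerivAt (Blog w) (Real.log (w ξ)) (ft w (p.1 + 0, p.2 + 2 * p.1)) := by
        rw [hf0]; exact Blog_hasDerivAt hw hw0 ξ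
      exact h1.comp (0 : ℝ) hf
    have ha : HasDerivAt (fun s : ℝ => p.1 + s) 1 0 := (hasDerivAt_id (0 : ℝ)).const_add p.1
    have hA : HasDerivAt (fun s : ℝ => φ₀ (p.2 + 2 * p.1) - 4 * (p.1 + s)) (0 - 4 * 1) 0 :=
      (hasDerivAt_const (0 : ℝ) (φ₀ (p.2 + 2 * p.1))).sub (ha.const_mul 4)
    have hM : HasDerivAt (fun s : ℝ => (p.1 + s) * (w (ft w (p.1 + s, p.2 + 2 * p.1)) *
        (1 - Real.log (w (ft w (p.1 + s, p.2 + 2 * p.1))))))
        (1 * (w ξ * (1 - Real.log (w ξ))) +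
        p.1 * ((deriv w ξ * k) * (1 - Real.log (w ξ)) + w ξ * (0 - (deriv w ξ * k) / w ξ))) 0 := by
      have h1 : HasDerivAt (fun s : ℝ => (p.1 + s) * (w (ft w (p.1 + s, p.2 + 2 * p.1)) *
          (1 - Real.log (w (ft w (p.1 + s, p.2 + 2 * p.1))))))
          (1 * (w (ft w (p.1 + 0, p.2 + 2 * p.1)) *
            (1 - Real.log (w (ft w (p.1 + 0, p.2 + 2 * p.1))))) +
          (p.1 + 0) * ((deriv w ξ * k) * (1 - Real.log (w (ft w (p.1 + 0, p.2 + 2 * p.1)))) +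
            w (ft w (p.1 + 0, p.2 + 2 * p.1)) * (0 - (deriv w ξ * k) / w ξ))) 0 :=
        ha.mul (hw1.mul ((hasDerivAt_const (0 : ℝ) (1 : ℝ)).sub hw2))
      rw [hf0, add_zero] at h1
      exact h1
    exact (hA.add hM).add ((hasDerivAt_const (0 : ℝ) (Blog w (p.2 + 2 * p.1))).sub hB1)
  rw [h0, e1.unique e2]
  have hwξ := hw0 ξ
  have h5 : w ξ * (0 - (deriv w ξ * k) / w ξ) = -(deriv w ξ * k) := by field_simp; ring
  rw [h5]
  linear_combination (-Real.log (w ξ)) * hkeq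

include hφ in
theorem wave_PhiX : SolvesWave (OmX w) (PhiX φ₀ w) := by
  intro p hp
  have h1 := fderiv_Psi (isOpen_OmX hw hw0) (contDiffOn_PhiX hw hw0 hφ) hp
  have h2 : fderiv ℝ (Psi (PhiX φ₀ w)) p (1, 2 + Psi (PhiX φ₀ w) p) = 0 := by
    have hz : toC p ∈ OmC w := hp
    have hev : Psi (PhiX φ₀ w) =ᶠ[𝓝 p] fun q => w (ft w (toC q)) - 4 := by
      filter_upwards [(isOpen_OmX hw hw0).mem_nhds hp] with q hq using Psi_PhiX hw hw0 hφ hq
    rw [hev.fderiv_eq]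
    set ξ := ft w (toC p) with hξ
    have htoC : HasFDerivAt toC (fderiv ℝ toC p) p :=
      (((contDiff_toC hw hw0).contDiffAt (x := p)).differentiableAt (by simp)).hasFDerivAt
    have hd : HasFDerivAt (fun q => w (ft w (toC q)) - 4)
        (deriv w ξ • ((fderiv ℝ (ft w) (toC p)).comp (fderiv ℝ toC p))) p := by
      have h3 : HasFDerivAt (fun q => ft w (toC q))
          ((fderiv ℝ (ft w) (toC p)).comp (fderiv ℝ toC p)) p :=
        (((contDiffAt_ft hw hw0 hz).differentiableAt (by simp)).hasFDerivAt).comp p htoC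
      exact ((w_hasDerivAt hw hw0 ξ).comp_hasFDerivAt p h3).sub_const 4
    rw [hd.fderiv]
    have hline : fderiv ℝ toC p (1, 2 + Psi (PhiX φ₀ w) p) = (1, w ξ) := by
      have h4 : HasFDerivAt toC ((ContinuousLinearMap.fst ℝ ℝ ℝ).prod
          (ContinuousLinearMap.snd ℝ ℝ ℝ + (2 : ℝ) • ContinuousLinearMap.fst ℝ ℝ ℝ)) p :=
        hasFDerivAt_fst.prodMk (hasFDerivAt_snd.add (hasFDerivAt_fst.const_mul 2))
      rw [h4.fderiv, Psi_PhiX hw hw0 hφ hp, ← hξ]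
      simp
      ring
    simp only [smul_apply, ContinuousLinearMap.comp_apply, smul_eq_mul]
    rw [hline]
    have h5 := fderiv_ft hw hw0 hz 1 (w ξ)
    rw [← hξ] at h5
    have h6 : fderiv ℝ (ft w) (toC p) (1, w ξ) * (1 + (toC p).1 * deriv w ξ) = 0 := by linarith
    have h7 := jac_pos hw hw0 hz
    rw [← hξ] at h7
    rcases mul_eq_zero.1 h6 with h8 | h8
    · rw [h8, mul_zero]
    · exact absurd h8 h7.ne'
  rw [h2] at h1
  linarith

theorem mem_OmX_zero (x : ℝ) : ((0 : ℝ), x) ∈ OmX w := by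
  have : toC ((0 : ℝ), x) = (0, x) := by simp [toC]
  unfold OmX
  rw [mem_preimage, this]
  exact mem_OmC_zero hw hw0 x

theorem PhiX_zero (x : ℝ) : PhiX φ₀ w (0, x) = φ₀ x := by
  have : toC ((0 : ℝ), x) = (0, x) := by simp [toC]
  unfold PhiX
  rw [this, ft_zero hw hw0]
  simp

include hφ in
theorem dx_PhiX_zero (x : ℝ) : dx (PhiX φ₀ w) (0, x) = deriv φ₀ x := by
  have hd : HasFDerivAt (PhiX φ₀ w) (fderiv ℝ (PhiX φ₀ w) (0, x)) (0, x) :=
    (((contDiffOn_PhiX hw hw0 hφ).contDiffAt ((isOpen_OmX hw hw0).mem_nhds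
      (mem_OmX_zero hw hw0 x))).differentiableAt (by simp)).hasFDerivAt
  have h1 : HasDerivAt (fun y : ℝ => (((0 : ℝ), y) : ℝ × ℝ)) (0, 1) x :=
    (hasDerivAt_const x (0 : ℝ)).prodMk (hasDerivAt_id x)
  have h2 := hd.comp_hasDerivAt x h1
  have h3 : (PhiX φ₀ w ∘ fun y : ℝ => (((0 : ℝ), y) : ℝ × ℝ)) = φ₀ := by
    funext y
    exact PhiX_zero hw hw0 y
  rw [h3] at h2
  exact h2.deriv.symm

include hφ in
theorem dt_PhiX_zero (x : ℝ) : dt (PhiX φ₀ w) (0, x) = w x - 4 + 2 * deriv φ₀ x := by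
  have h1 := Psi_PhiX hw hw0 hφ (mem_OmX_zero hw hw0 x)
  have : toC ((0 : ℝ), x) = (0, x) := by simp [toC]
  rw [this, ft_zero hw hw0] at h1
  have h2 := dx_PhiX_zero hw hw0 hφ x
  unfold Psi at h1
  rw [h2] at h1
  linarith

end

end Pool.Agent.Helper5MGHD
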